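import Pool.Agent.H27.LV.Basic

/-!
# MP_70ba79_ag: target ALP
-/

set_option autoImplicit false

namespace Pool.Agent.H27.LV

open MvPolynomial SC

/-- determinant of the multiplication by `lin x` on the multiples of the variable `b` -/
lemma det_alp {K : Type} [Field K] (n d : ℕ) (x : Fin (n + 1) → K) (b : Fin (n + 1))
    (A : Matrix (Mon (n + 1) d) (Mon (n + 1) d) K)
    (hA : ∀ p p', A p p' = ∑ j, if (fun i => p'.1 i + if i = j then 1 else 0) =
      (fun i => p.1 i + if i = b then 1 else 0) then x j else 0) :
    A.det = x b ^ Fintype.card (Mon (n + 1) d) := by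
  have h0 : ∀ p p' : Mon (n + 1) d, p'.1 b ≤ p.1 b → A p p' = if p = p' then x b else 0 := by
    intro p p' hle
    rw [hA]
    have h1 : ∀ j, (if (fun i => p'.1 i + if i = j then 1 else 0) =
        (fun i => p.1 i + if i = b then 1 else 0) then x j else 0) =
        if j = b then (if p = p' then x b else 0) else 0 := by
      intro j
      by_cases hj : j = b
      · rw [if_pos hj, hj]
        congr 1
        apply propext
        constructor
        · intro h
          apply Subtype.ext
          funext i
          have := congrFun h i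
          simpa using this.symm
        · rintro rfl
          rfl
      · rw [if_neg hj, if_neg]
        intro h
        have := congrFun h b
        simp only [if_true, if_neg (Ne.symm hj)] at this
        omega
    simp only [h1, Finset.sum_ite_eq', Finset.mem_univ, if_true]
  have hbt : A.BlockTriangular (fun p : Mon (n + 1) d => p.1 b) := by
    intro p p' hlt
    rw [h0 p p' hlt.le, if_neg]
    rintro rfl
    exact lt_irrefl _ hlt
  rw [hbt.det]
  have h2 : ∀ c : ℕ, (A.toSquareBlock (fun p : Mon (n + 1) d => p.1 b) c).det =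
      x b ^ (Finset.univ.filter fun p : Mon (n + 1) d => p.1 b = c).card := by
    intro c
    have h3 : A.toSquareBlock (fun p : Mon (n + 1) d => p.1 b) c =
        x b • (1 : Matrix {p : Mon (n + 1) d // p.1 b = c} {p : Mon (n + 1) d // p.1 b = c} K) := by
      ext p p'
      have h4 : p'.1.1 b ≤ p.1.1 b := by rw [p.2, p'.2]
      have h5 : A.toSquareBlock (fun p : Mon (n + 1) d => p.1 b) c p p' = A p.1 p'.1 := rfl
      rw [h5, h0 _ _ h4, Matrix.smul_apply, Matrix.one_apply]
      simp only [Subtype.ext_iff (a1 := p), smul_eq_mul, mul_ite, mul_one, mul_zero]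
    rw [h3, Matrix.det_smul, Matrix.det_one, mul_one, Fintype.card_subtype]
  simp only [h2]
  rw [Finset.prod_pow_eq_pow_sum]
  congr 1
  rw [← Finset.card_univ]
  exact (Finset.card_eq_sum_card_image (fun p : Mon (n + 1) d => p.1 b) Finset.univ).symm

theorem tALP (hSPL : T_SPL) : T_ALP := by
  intro K _ n d x b e
  obtain ⟨e1, h1, h2⟩ := hSPL n d b
  let e0 : Mon (n + 1) d ⊕ Mon n (d + 1) ≃ Mon (n + 1) (d + 1) := (Equiv.sumComm _ _).trans e1
  have he0l : ∀ p, (e0 (Sum.inl p)).1 = fun j => p.1 j + if j = b then 1 else 0 := h2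
  have he0r : ∀ q, (e0 (Sum.inr q)).1 = insm b q := h1
  obtain ⟨σ, hσ⟩ : ∃ σ : Equiv.Perm (Mon (n + 1) d ⊕ Mon n (d + 1)), σ = e.trans e0.symm :=
    ⟨_, rfl⟩
  have hM : (alB d x b).submatrix e id = ((alB d x b).submatrix e0 id).submatrix σ id := by
    ext i j
    simp [hσ]
  have hB : (alB d x b).submatrix e0 id = Matrix.fromBlocks
      (Matrix.of fun p p' : Mon (n + 1) d => ∑ j, if (fun i => p'.1 i + if i = j then 1 else 0) =
        (fun i => p.1 i + if i = b then 1 else 0) then x j else 0) 0
      (Matrix.of fun (q : Mon n (d + 1)) (p' : Mon (n + 1) d) =>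
        (lin x * mono K p'.1).coeff (fs (insm b q))) 1 := by
    ext i j
    rcases i with p | q <;> rcases j with p' | q'
    · simp only [Matrix.submatrix_apply, id, Matrix.fromBlocks_apply₁₁, Matrix.of_apply, alB]
      rw [coeff_lin_mul_mono, he0l]
    · simp only [Matrix.submatrix_apply, id, Matrix.fromBlocks_apply₁₂, Matrix.of_apply, alB,
        Matrix.zero_apply]
      rw [coeff_mono, he0l, if_neg]
      intro h
      have := congrFun h b
      simp [insm_self] at this
    · simp only [Matrix.submatrix_apply, id, Matrix.fromBlocks_apply₂₁, Matrix.of_apply, alB]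
      rw [he0r]
    · simp only [Matrix.submatrix_apply, id, Matrix.fromBlocks_apply₂₂, Matrix.of_apply, alB]
      rw [coeff_mono, he0r, Matrix.one_apply]
      congr 1
      apply propext
      constructor
      · intro h
        exact (insm_injective b h).symm
      · rintro rfl
        rfl
  obtain ⟨A, hA⟩ : ∃ A : Matrix (Mon (n + 1) d) (Mon (n + 1) d) K, A = Matrix.of fun p p' =>
      ∑ j, if (fun i => p'.1 i + if i = j then 1 else 0) =
        (fun i => p.1 i + if i = b then 1 else 0) then x j else 0 := ⟨_, rfl⟩
  have hdet := det_alp n d x b A (fun p p' => by rw [hA]; rfl)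
  rw [hM, Matrix.det_permute, hB, Matrix.det_fromBlocks_zero₁₂, Matrix.det_one, mul_one, ← hA,
    hdet]
  rcases Int.units_eq_one_or (Equiv.Perm.sign σ) with h | h
  · left
    rw [h]
    simp
  · right
    rw [h]
    simp

end Pool.Agent.H27.LV
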