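import Pool.Agent.H27.LV.Targets

/-!
# MP_70ba79_ag: basic lemmas on monomials and forms
-/

set_option autoImplicit false

namespace Pool.Agent.H27.LV

open MvPolynomial SC

variable {k K : Type} [Field k] [Field K] [Algebra k K] {n m : ℕ}

@[simp] lemma fs_apply (f : Fin (n + 1) → ℕ) (j : Fin (n + 1)) : fs f j = f j := rfl

lemma fs_injective : Function.Injective (fs (n := n)) := Finsupp.equivFunOnFinite.symm.injective

lemma fs_inj {f g : Fin (n + 1) → ℕ} : fs f = fs g ↔ f = g := fs_injective.eq_iff

lemma fs_coe (s : Fin (n + 1) →₀ ℕ) : fs (s : Fin (n + 1) → ℕ) = s := by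
  ext j; rfl

lemma degree_fs (f : Fin (n + 1) → ℕ) : (fs f).degree = ∑ i, f i := by
  rw [Finsupp.degree_eq_sum]
  rfl

lemma sum_insm (b : Fin (n + 1)) (q : Mon n m) : ∑ i, insm b q i = m := by
  unfold insm
  rw [Fin.sum_univ_succAbove _ b]
  simp only [Fin.insertNth_apply_same, Fin.insertNth_apply_succAbove, zero_add]
  exact q.2

/-- `insm b q` as a monomial in all the variables -/
def inMon (b : Fin (n + 1)) (q : Mon n m) : Mon (n + 1) m := ⟨insm b q, sum_insm b q⟩

lemma insm_injective (b : Fin (n + 1)) : Function.Injective (insm (d := m) b) := by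
  intro p q h
  apply Subtype.ext
  funext i
  have := congrFun h (b.succAbove i)
  simpa [insm] using this

lemma insm_self (b : Fin (n + 1)) (q : Mon n m) : insm b q b = 0 := by
  simp [insm]

lemma insm_succAbove (b : Fin (n + 1)) (q : Mon n m) (i : Fin n) :
    insm b q (b.succAbove i) = q.1 i := by
  simp [insm]

lemma coeff_mono (f g : Fin (n + 1) → ℕ) :
    (mono K f).coeff (fs g) = if f = g then 1 else 0 := by
  classical
  rw [mono, coeff_monomial]
  simp only [fs_inj]

lemma isHomogeneous_mono' (f : Fin (n + 1) → ℕ) : (mono K f).IsHomogeneous (∑ i, f i) := by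
  rw [← degree_fs]
  exact isHomogeneous_monomial _ rfl

lemma isHomogeneous_mono (p : Mon (n + 1) m) : (mono K p.1).IsHomogeneous m := by
  have := isHomogeneous_mono' (K := K) p.1
  rwa [p.2] at this

lemma isHomogeneous_mono_insm (b : Fin (n + 1)) (q : Mon n m) :
    (mono K (insm b q)).IsHomogeneous m := isHomogeneous_mono (K := K) (inMon b q)

/-- decomposition of a form into monomials -/
lemma dec {g : MvPolynomial (Fin (n + 1)) K} (hg : g.IsHomogeneous m) :
    g = ∑ p : Mon (n + 1) m, C (g.coeff (fs p.1)) * mono K p.1 := by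
  classical
  ext s
  rw [coeff_sum]
  have h1 : ∀ p : Mon (n + 1) m, (C (g.coeff (fs p.1)) * mono K p.1).coeff s =
      if p.1 = (s : Fin (n + 1) → ℕ) then g.coeff s else 0 := by
    intro p
    rw [coeff_C_mul]
    conv_lhs => rw [← fs_coe s]
    rw [coeff_mono]
    split_ifs with h
    · rw [h, fs_coe, mul_one]
    · rw [mul_zero]
  simp only [h1]
  by_cases hs : s.degree = m
  · have h2 : ∑ i, s i = m := by rw [← hs, Finsupp.degree_eq_sum]
    rw [Finset.sum_eq_single (⟨s, h2⟩ : Mon (n + 1) m)]
    · simp
    · intro p _ hp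
      rw [if_neg]
      intro h
      exact hp (Subtype.ext h)
    · simp
  · rw [hg.coeff_eq_zero hs]
    simp

lemma isHomogeneous_lin (x : Fin (n + 1) → K) : (lin x).IsHomogeneous 1 := by
  unfold lin
  refine IsHomogeneous.sum _ _ _ fun j _ => ?_
  have := (isHomogeneous_C (Fin (n + 1)) (x j)).mul (isHomogeneous_X K j)
  simpa using this

lemma eval_lin (a : Fin (n + 1) → k) (x : Fin (n + 1) → K) :
    eval (evk K a) (lin x) = ell a x := by
  simp only [lin, map_sum, map_mul, eval_C, eval_X, evk, ell]
  exact Finset.sum_congr rfl fun j _ => mul_comm _ _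

lemma eval_lin_D (a : Fin (n + 1) → k) (x : Fin (n + 1) → K) (D : Derivation k K K) :
    eval (evk K a) (lin fun j => D (x j)) = D (ell a x) := by
  rw [eval_lin]
  simp only [ell, map_sum]
  refine Finset.sum_congr rfl fun j _ => ?_
  rw [D.leibniz]
  simp

lemma lin_smul (c : K) (x : Fin (n + 1) → K) : lin (fun j => c * x j) = C c * lin x := by
  simp only [lin, Finset.mul_sum, C_mul, mul_assoc]

lemma lin_add (x x' : Fin (n + 1) → K) : lin (fun j => x j + x' j) = lin x + lin x' := by
  simp only [lin, C_add, add_mul, Finset.sum_add_distrib]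

lemma ell_smul (a : Fin (n + 1) → k) (c : K) (x : Fin (n + 1) → K) :
    ell a (fun j => c * x j) = c * ell a x := by
  simp only [ell, Finset.mul_sum]
  exact Finset.sum_congr rfl fun j _ => by ring

/-- coefficients of the product of a linear form and a monomial -/
lemma coeff_lin_mul_mono (x : Fin (n + 1) → K) (f g : Fin (n + 1) → ℕ) :
    (lin x * mono K f).coeff (fs g) =
      ∑ j, if (fun i => f i + if i = j then 1 else 0) = g then x j else 0 := by
  classical
  simp only [lin, Finset.sum_mul, coeff_sum]
  refine Finset.sum_congr rfl fun j _ => ?_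
  have h1 : X j * mono K f = mono K (fun i => f i + if i = j then 1 else 0) := by
    simp only [mono, X, monomial_mul, one_mul]
    congr 2
    ext i
    simp only [Finsupp.coe_add, Pi.add_apply, fs_apply, Finsupp.single_apply]
    rw [add_comm]
    simp only [eq_comm]
  rw [mul_assoc, h1, coeff_C_mul, coeff_mono]
  split_ifs <;> simp

/-- value of `mono` at a constant point -/
lemma eval_mono (a : Fin (n + 1) → K) (f : Fin (n + 1) → ℕ) :
    eval a (mono K f) = ∏ j, a j ^ f j := by
  rw [mono, eval_monomial, one_mul, Finsupp.prod_fintype]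
  · rfl
  · intro i; rw [pow_zero]

lemma eval_evk_mono (a : Fin (n + 1) → k) (f : Fin (n + 1) → ℕ) :
    eval (evk K a) (mono K f) = algebraMap k K (eval a (mono k f)) := by
  rw [eval_mono, eval_mono, map_prod]
  exact Finset.prod_congr rfl fun j _ => by rw [map_pow]; rfl

/-- evaluation at a constant point commutes with the extension of scalars -/
lemma eval_evk_map (a : Fin (n + 1) → k) (g : MvPolynomial (Fin (n + 1)) k) :
    eval (evk K a) (MvPolynomial.map (algebraMap k K) g) = algebraMap k K (eval a g) := by
  rw [eval_map]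
  exact (MvPolynomial.eval₂_comp_left (algebraMap k K) (RingHom.id k) a g).symm ▸ rfl

end Pool.Agent.H27.LV
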