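import Pool.Agent.H27.LV.Final
import Pool.Agent.H8.LV.INJ
import Pool.Agent.H8.LV.MRK
import Pool.Agent.H8.LV.SEL
import Pool.Agent.H70.LV.LDT
import Pool.Agent.H78.LV.LB
import Pool.Agent.H78.LV.CHB
import Pool.Agent.H78.LV.LOC
import Pool.Agent.H36.LV.LAL
import Pool.Agent.H36.LV.DUA
import Pool.Agent.H36.LV.HYV
import Pool.Agent.H95.LV.DK
import Pool.Agent.H58.LV.HYC
import Pool.Agent.H2.LV.CRD
import Pool.Agent.H58.LV.DFI
import Pool.Agent.H27.LV.HOM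
import Pool.Agent.H27.LV.ALP

/-!
# MP_70ba79_ag: assembly of the modules
-/

set_option autoImplicit false

namespace Pool.Agent.H27.LV

theorem tSPL : T_SPL := Pool.Agent.H95.LV.spl
theorem tDK : T_DK := Pool.Agent.H95.LV.dk
theorem tUL : T_UL := Pool.Agent.H95.LV.ul tDK
theorem tCRD : T_CRD := Pool.Agent.H2.LV.crd tSPL
theorem tCRR : T_CRR := Pool.Agent.H2.LV.crr tSPL
theorem tLAL : T_LAL := Pool.Agent.H36.LV.lal
theorem tLDT : T_LDT := Pool.Agent.H70.LV.ldt Pool.Agent.H70.LV.wdt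
theorem tLB : T_LB := lb tLDT
theorem tSEL : T_SEL := sel
theorem tDUA : T_DUA := Pool.Agent.H36.LV.dua

theorem tMIN : T_MIN := Pool.Agent.H27.LV.min tHOM inj mrk

theorem tCHB : T_CHB := chb tUL tHOM (tALP tSPL) tLAL tSPL

theorem tLOC : T_LOC := loc tCHB tLB (tUSC tDK)

theorem tHYV : T_HYV := Pool.Agent.H36.LV.hyv (Pool.Agent.H58.LV.hyc (tALP tSPL) tSPL)

theorem tDFI : T_DFI := Pool.Agent.H58.LV.dfi dor pfm rat

theorem tSMT : T_SMT := smt tMIN tLOC tHYV tDFI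

theorem tLVX : T_LVX := lvx tSEL tCRR tSMT

end Pool.Agent.H27.LV
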