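import Pool.Agent.H27.LV.Targets2
import Pool.Agent.H62.FR.BND
import Pool.Agent.H97.FR.THE
import Pool.Agent.H36.SC.V6
import Pool.Agent.H76.KN.V5
import Pool.Agent.H64.SC.Api2

/-!
# MP_70ba79_ag: places of curves (targets RAT, PFM, KER, DOR, PFI)
-/

set_option autoImplicit false

namespace Pool.Agent.H27.LV

open SC

section Ge

variable {k K : Type} [Field k] [Field K] [Algebra k K] (v : DV k K)

variable {v} in
lemma ge.add {t : ℤ} {x y : K} (hx : ge v t x) (hy : ge v t y) : ge v t (x + y) := by
  by_cases h : x + y = 0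
  · exact Or.inl h
  right
  refine v.ord_add_ge (fun h0 => ?_) (fun h0 => ?_) h
  · exact hx.resolve_left h0
  · exact hy.resolve_left h0

variable {v} in
lemma ge.neg {t : ℤ} {x : K} (hx : ge v t x) : ge v t (-x) := by
  rcases hx with h | h
  · left; rw [h, neg_zero]
  · right; rw [v.ord_neg]; exact h

variable {v} in
lemma ge.sub {t : ℤ} {x y : K} (hx : ge v t x) (hy : ge v t y) : ge v t (x - y) := by
  rw [sub_eq_add_neg]
  exact hx.add hy.neg

variable {v} in
lemma ge.mul {s t : ℤ} {x y : K} (hx : ge v s x) (hy : ge v t y) : ge v (s + t) (x * y) := by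
  rcases hx with h | h
  · left; rw [h, zero_mul]
  rcases hy with h' | h'
  · left; rw [h', mul_zero]
  by_cases hx0 : x = 0
  · left; rw [hx0, zero_mul]
  by_cases hy0 : y = 0
  · left; rw [hy0, mul_zero]
  right
  rw [v.ord_mul' hx0 hy0]
  omega

variable {v} in
lemma ge.mono {s t : ℤ} {x : K} (hx : ge v s x) (h : t ≤ s) : ge v t x :=
  hx.imp id fun h' => h.trans h'

lemma ge_zero (t : ℤ) : ge v t (0 : K) := Or.inl rfl

lemma ge_one : ge v 0 (1 : K) := Or.inr (by rw [v.ord_one])

lemma ge_const (c : k) : ge v 0 (algebraMap k K c) := Or.inr (by rw [v.ord_base])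

lemma ge_of_ord {x : K} : ge v (v.ord x) x := Or.inr le_rfl

lemma ge_sum {ι : Type*} (s : Finset ι) (f : ι → K) (t : ℤ) (h : ∀ i ∈ s, ge v t (f i)) :
    ge v t (∑ i ∈ s, f i) := by
  classical
  induction s using Finset.induction_on with
  | empty => exact ge_zero v t
  | insert a s ha ih =>
    rw [Finset.sum_insert ha]
    exact (h a (Finset.mem_insert_self _ _)).add
      (ih fun i hi => h i (Finset.mem_insert_of_mem hi))

/-- a constant which vanishes at a place is zero -/
lemma const_eq_zero {c : k} {t : ℤ} (ht : 0 < t) (h : ge v t (algebraMap k K c)) : c = 0 := by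
  rcases h with h | h
  · exact (map_eq_zero _).1 h
  · rw [v.ord_base] at h
    omega

end Ge

theorem rat : T_RAT := by
  intro k K _ _ _ _ _ _ htr v
  have hfin : Module.Finite k v.Res := Pool.Agent.H36.SC.v6a Pool.Agent.H76.KN.v5 k K htr v
  have hint : Algebra.IsIntegral k v.Res := Algebra.IsIntegral.of_finite k v.Res
  have hbij : Function.Bijective (algebraMap k v.Res) :=
    IsAlgClosed.algebraMap_bijective_of_isIntegral
  constructor
  · unfold DV.deg
    have e : k ≃ₗ[k] v.Res := LinearEquiv.ofBijective (Algebra.linearMap k v.Res) hbij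
    rw [← e.finrank_eq, Module.finrank_self]
  · intro z hz
    obtain ⟨c, hc⟩ := hbij.2 (v.red z)
    refine ⟨c, ?_⟩
    rw [← v.red_algebraMap] at hc
    rcases (v.red_sub_eq_zero_iff hz (by rw [v.ord_base])).1 hc.symm with h | h
    · left; rw [h, sub_self]
    · right; omega

theorem pfm : T_PFM := by
  intro k K _ _ _ _ _ _ htr f
  refine ⟨Pool.Agent.H36.SC.v6b Pool.Agent.H76.KN.v5 k K htr f, ?_⟩
  have h := Pool.Agent.H36.SC.v6c Pool.Agent.H76.KN.v5 k K htr f
  have h1 : ∀ v : DV k K, v.ord f = (v.deg : ℤ) * v.ord f := by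
    intro v
    rw [(rat k K htr v).1]
    simp
  rw [← h]
  exact finsum_congr h1

theorem pfi : T_PFI := by
  intro k K _ _ _ _ _ _ htr ι _ z
  have h1 : {v : DV k K | poleOrder v z ≠ 0} ⊆ ⋃ i, {v : DV k K | v.ord (z i) ≠ 0} := by
    intro v hv
    simp only [Set.mem_iUnion, Set.mem_ofPred_eq] at hv ⊢
    by_contra hcon
    push Not at hcon
    apply hv
    unfold poleOrder
    rw [← Nat.le_zero]
    refine Finset.sup_le fun i _ => ?_
    rw [hcon i]
    simp
  exact (Set.finite_iUnion fun i => (pfm k K htr (z i)).1).subset h1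

theorem ker : T_KER := by
  intro k K _ _ _ _ _ _ htr D hD z hz
  by_contra hcon
  have hzt : Transcendental k z := by
    intro halg
    apply hcon
    have hint : IsIntegral k z := halg.isIntegral
    have h1 : (minpoly k z).degree = 1 := IsAlgClosed.degree_eq_one_of_irreducible k
      (minpoly.irreducible hint)
    obtain ⟨c, hc⟩ := minpoly.mem_range_of_degree_eq_one k z h1
    exact ⟨c, hc⟩
  have hfd := Pool.Agent.H36.SC.fin_of_transc htr hzt
  apply hD
  obtain ⟨E, hE⟩ : ∃ E, E = IntermediateField.adjoin k {z} := ⟨_, rfl⟩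
  rw [← hE] at hfd
  have hDE : ∀ e ∈ E, D e = 0 := by
    intro e he
    rw [hE] at he
    induction he using IntermediateField.adjoin_induction with
    | mem w hw => rw [Set.mem_singleton_iff.1 hw, hz]
    | algebraMap c => rw [D.map_algebraMap]
    | add w w' _ _ h1 h2 => rw [map_add, h1, h2, add_zero]
    | mul w w' _ _ h1 h2 => rw [D.leibniz, h1, h2, smul_zero, smul_zero, add_zero]
    | inv w _ h1 => rw [D.leibniz_inv, h1, smul_zero]
  have hcz : CharZero E := charZero_of_injective_algebraMap (algebraMap k E).injective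
  have hsep : Algebra.IsSeparable E K := inferInstance
  have hun : Algebra.FormallyUnramified E K := Algebra.FormallyUnramified.of_isSeparable E K
  let D' : Derivation E K K := Derivation.mk'
    { toFun := D
      map_add' := map_add D
      map_smul' := fun e w => by
        rw [Algebra.smul_def, D.leibniz]
        change (e : K) • D w + w • D (e : K) = (RingHom.id E) e • D w
        rw [hDE _ e.2, smul_zero, add_zero]
        rfl } (fun w w' => D.leibniz w w')
  have h0 : D' = 0 := by
    have h1 : D'.liftKaehlerDifferential = 0 := Subsingleton.elim _ _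
    have h2 := D'.liftKaehlerDifferential_comp
    rw [h1] at h2
    ext w
    rw [← h2]
    rfl
  ext w
  have h3 : D w = D' w := rfl
  rw [h3, h0]
  rfl

theorem dor : T_DOR := by
  intro k K _ _ _ _ _ _ htr D hD v
  have hπ0 := v.unif_ne_zero
  have hπ1 := v.ord_unif
  have hDπ : D v.unif ≠ 0 := by
    intro h
    obtain ⟨c, hc⟩ := ker k K htr D hD _ h
    rw [← hc, v.ord_base] at hπ1
    omega
  have hfin : Module.Finite k v.Res := Pool.Agent.H36.SC.v6a Pool.Agent.H76.KN.v5 k K htr v
  have halg : Algebra.IsAlgebraic k v.Res := Algebra.IsAlgebraic.of_finite k v.Res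
  let θ : Derivation k K K := (v.unif / D v.unif) • D
  have hθ : ∀ z, θ z = v.unif / D v.unif * D z := fun z => rfl
  have hθt : θ v.unif = v.unif := by rw [hθ, div_mul_cancel₀ _ hDπ]
  obtain ⟨h1, h2⟩ := Pool.Agent.H97.FR.the k K θ v v.unif halg
    (Pool.Agent.H62.FR.bnd k K htr θ v) hθt hπ0 (by omega)
  have hq : v.unif / D v.unif ≠ 0 := div_ne_zero hπ0 hDπ
  have hord : ∀ z, D z ≠ 0 → v.ord (D z) = ordD v D - 1 + v.ord (θ z) := by
    intro z hz
    rw [hθ, v.ord_mul' hq hz, v.ord_div hπ0 hDπ, hπ1]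
    unfold ordD
    ring
  have hθ0 : ∀ z, D z ≠ 0 → θ z ≠ 0 := fun z hz => mul_ne_zero hq hz
  have hcz : ∀ z : K, z ≠ 0 → D z ≠ 0 → 0 ≤ v.ord (θ z / z) ∧ (v.ord z ≠ 0 →
      v.ord (θ z / z) = 0) := by
    intro z hz hDz
    have h3 := h2 z hz
    rw [hπ1, Int.cast_one, div_one] at h3
    rcases h3 with h3 | h3
    · rw [h3, v.ord_base]
      exact ⟨le_rfl, fun _ => rfl⟩
    · obtain ⟨c, hc⟩ : ∃ c, c = algebraMap k K (v.ord z : k) := ⟨_, rfl⟩
      rw [← hc] at h3
      have h4 : θ z / z = c + (θ z / z - c) := by ring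
      have hc0 : v.ord c = 0 := by rw [hc, v.ord_base]
      constructor
      · rw [h4]
        exact v.ord_add_nonneg hc0.ge h3.le
      · intro hne
        have hcne : c ≠ 0 := by
          rw [hc, Ne, map_eq_zero]
          exact_mod_cast hne
        rw [h4, (v.ord_add_eq_left (y := θ z / z - c) hcne (fun _ => by omega)).2, hc0]
  refine ⟨hDπ, ⟨?_, ?_⟩, ?_⟩
  · intro z hz
    by_cases h0 : D z = 0
    · exact Or.inl h0
    right
    rw [hord z h0]
    have := h1 z hz (hθ0 z h0)
    omega
  · intro z hz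
    by_cases h0 : D z = 0
    · exact Or.inl h0
    right
    rw [hord z h0]
    have := (hcz z hz h0).1
    rw [v.ord_div (hθ0 z h0) hz] at this
    omega
  · intro z hz
    have hz0 : z ≠ 0 := by
      rintro rfl
      rw [v.ord_zero] at hz
      exact hz rfl
    have h0 : D z ≠ 0 := by
      intro h
      obtain ⟨c, hc⟩ := ker k K htr D hD _ h
      rw [← hc, v.ord_base] at hz
      exact hz rfl
    refine ⟨h0, ?_⟩
    rw [hord z h0]
    have := (hcz z hz0 h0).2 hz
    rw [v.ord_div (hθ0 z h0) hz0] at this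
    omega

end Pool.Agent.H27.LV
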