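import Pool.Agent.H27.LV.Targets2
import Pool.Agent.H27.LV.Basic

/-!
# MP_70ba79_ag: general families of points are in general position
-/

set_option autoImplicit false

namespace Pool.Agent.H27.LV

open MvPolynomial

variable {k : Type} [Field k] {n : ℕ}

/-- no nonzero form of degree `e` vanishes at all the points `a i` -/
def GenPos {ι : Type} (e : ℕ) (a : ι → Fin (n + 1) → k) : Prop :=
  ∀ g : MvPolynomial (Fin (n + 1)) k, g.IsHomogeneous e → (∀ i, eval (a i) g = 0) → g = 0

/-- the points `a i` and the point `(1, 0, …, 0)` -/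
def withInfty {q : ℕ} (a : Fin q → Fin (n + 1) → k) : Option (Fin q) → Fin (n + 1) → k :=
  fun o => o.elim (Pi.single 0 1) a

/-- values of the monomials of degree `e` at a point -/
def mv (e : ℕ) (p : Fin (n + 1) → k) : Mon (n + 1) e → k := fun f => ∏ j, p j ^ f.1 j

/-- the form with coefficients `t` -/
noncomputable def frm {e : ℕ} (t : Mon (n + 1) e → k) : MvPolynomial (Fin (n + 1)) k :=
  ∑ f, C (t f) * mono k f.1

lemma frm_homog {e : ℕ} (t : Mon (n + 1) e → k) : (frm t).IsHomogeneous e := by
  unfold frm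
  refine IsHomogeneous.sum _ _ _ fun f _ => ?_
  have := (isHomogeneous_C (Fin (n + 1)) (t f)).mul (isHomogeneous_mono (K := k) f)
  simpa using this

lemma eval_frm {e : ℕ} (t : Mon (n + 1) e → k) (p : Fin (n + 1) → k) :
    eval p (frm t) = ∑ f, t f * mv e p f := by
  unfold frm mv
  rw [map_sum]
  refine Finset.sum_congr rfl fun f _ => ?_
  rw [map_mul, eval_C, eval_mono]

lemma frm_zero {e : ℕ} {t : Mon (n + 1) e → k} (h : frm t = 0) : t = 0 := by
  funext f
  have h1 := congrArg (fun g => coeff (fs f.1) g) h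
  simp only [frm, coeff_sum, coeff_C_mul, coeff_mono, coeff_zero] at h1
  rw [Finset.sum_eq_single f (by
    intro b _ hb
    rw [if_neg (fun h => hb (Subtype.ext h)), mul_zero]) (by simp)] at h1
  simpa using h1

lemma frm_coeff {e : ℕ} {g : MvPolynomial (Fin (n + 1)) k} (hg : g.IsHomogeneous e) :
    frm (fun f : Mon (n + 1) e => coeff (fs f.1) g) = g := (dec hg).symm

lemma genPos_iff {ι : Type} {e : ℕ} {a : ι → Fin (n + 1) → k} :
    GenPos e a ↔ ∀ t : Mon (n + 1) e → k, (∀ i, ∑ f, t f * mv e (a i) f = 0) → t = 0 := by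
  constructor
  · intro h t ht
    exact frm_zero (h _ (frm_homog t) fun i => by rw [eval_frm, ht i])
  · intro h g hg hev
    rw [← frm_coeff hg]
    rw [h (fun f : Mon (n + 1) e => coeff (fs f.1) g) (fun i => by
      rw [← eval_frm, frm_coeff hg, hev i])]
    simp [frm]

/-- over an infinite field the vectors `mv e p` span -/
lemma span_mv [Infinite k] (e : ℕ) :
    Submodule.span k (Set.range (mv (k := k) (n := n) e)) = ⊤ := by
  by_contra hne
  obtain ⟨f, hf, hf0⟩ := Submodule.exists_le_ker_of_lt_top _ (lt_top_iff_ne_top.2 hne)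
  apply hf
  obtain ⟨t, ht⟩ : ∃ t : Mon (n + 1) e → k, t = fun m => f (Pi.single m 1) := ⟨_, rfl⟩
  have hft : ∀ x : Mon (n + 1) e → k, f x = ∑ m, t m * x m := by
    intro x
    conv_lhs => rw [pi_eq_sum_univ x]
    rw [map_sum]
    refine Finset.sum_congr rfl fun m _ => ?_
    rw [map_smul, smul_eq_mul, mul_comm, ht]
    simp only
    congr 2
    funext i
    rw [Pi.single_apply]
    simp only [eq_comm]
  have h1 : ∀ p : Fin (n + 1) → k, ∑ m, t m * mv e p m = 0 := by
    intro p
    rw [← hft]
    have : mv e p ∈ LinearMap.ker f := hf0 (Submodule.subset_span ⟨p, rfl⟩)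
    exact LinearMap.mem_ker.1 this
  have h2 : frm t = 0 := by
    refine MvPolynomial.funext fun p => ?_
    rw [eval_frm, h1 p, map_zero]
  have h3 := frm_zero h2
  refine LinearMap.ext fun x => ?_
  rw [hft, h3]
  simp

/-- existence of points in general position -/
lemma exists_genPos [Infinite k] (e q : ℕ) (hq : Fintype.card (Mon (n + 1) e) ≤ q + 1) :
    ∃ a : Fin q → Fin (n + 1) → k, GenPos e (withInfty a) := by
  classical
  obtain ⟨p0, hp0⟩ : ∃ p0 : Fin (n + 1) → k, p0 = Pi.single 0 1 := ⟨_, rfl⟩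
  have hne : mv e p0 ≠ 0 := by
    intro h
    have h1 := congrFun h ⟨Pi.single 0 e, by simp⟩
    simp only [mv, hp0, Pi.zero_apply] at h1
    rw [Fin.prod_univ_succ] at h1
    simp at h1
  have hli : LinearIndepOn k id ({mv e p0} : Set (Mon (n + 1) e → k)) :=
    LinearIndepOn.singleton hne
  obtain ⟨b, hbt, hsb, htb, hb⟩ := exists_linearIndepOn_id_extension (t := Set.range (mv e)) hli
    (by rintro _ rfl; exact ⟨p0, rfl⟩)
  have hspan : Submodule.span k b = ⊤ := by
    rw [eq_top_iff, ← span_mv e]
    exact Submodule.span_le.2 htb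
  have hfin : b.Finite := hb.setFinite
  obtain ⟨B, hB⟩ : ∃ B : Finset (Mon (n + 1) e → k), (B : Set (Mon (n + 1) e → k)) = b :=
    ⟨hfin.toFinset, by simp⟩
  have hcard : B.card ≤ Fintype.card (Mon (n + 1) e) := by
    have h1 : LinearIndependent k (fun x : B => (x : Mon (n + 1) e → k)) := by
      rw [← hB] at hb
      exact hb
    have h2 := h1.fintype_card_le_finrank
    simpa using h2
  have hmem : mv e p0 ∈ B := by
    rw [← Finset.mem_coe, hB]
    exact hsb rfl
  obtain ⟨B', hB'⟩ : ∃ B', B' = B.erase (mv e p0) := ⟨_, rfl⟩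
  have hB'c : B'.card ≤ q := by
    rw [hB', Finset.card_erase_of_mem hmem]
    omega
  have hpt : ∀ x ∈ B', ∃ p : Fin (n + 1) → k, mv e p = x := by
    intro x hx
    have h1 : x ∈ B := Finset.mem_of_mem_erase (hB' ▸ hx)
    rw [← Finset.mem_coe, hB] at h1
    exact hbt h1
  choose! pt hpt using hpt
  let en := B'.equivFin
  let a : Fin q → Fin (n + 1) → k := fun i =>
    if h : i.1 < B'.card then pt (en.symm ⟨i.1, h⟩ : B').1 else 0
  refine ⟨a, genPos_iff.2 fun t ht => ?_⟩
  have h0 : ∑ f, t f * mv e p0 f = 0 := by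
    have := ht none
    rw [hp0]
    exact this
  have hx : ∀ x ∈ B, ∑ f, t f * x f = 0 := by
    intro x hx
    by_cases hxe : x = mv e p0
    · rw [hxe]; exact h0
    · have hx' : x ∈ B' := by
        rw [hB']
        exact Finset.mem_erase.2 ⟨hxe, hx⟩
      have h1 := ht (some ⟨(en ⟨x, hx'⟩).1, lt_of_lt_of_le (en ⟨x, hx'⟩).2 hB'c⟩)
      have h2 : withInfty a (some ⟨(en ⟨x, hx'⟩).1, lt_of_lt_of_le (en ⟨x, hx'⟩).2 hB'c⟩) =
          pt x := by
        change a _ = pt x
        simp only [a]
        rw [dif_pos (en ⟨x, hx'⟩).2]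
        simp
      rw [h2, hpt x hx'] at h1
      exact h1
  let F : (Mon (n + 1) e → k) →ₗ[k] k :=
    { toFun := fun x => ∑ f, t f * x f
      map_add' := fun x y => by
        simp only [Pi.add_apply, mul_add, Finset.sum_add_distrib]
      map_smul' := fun c x => by
        simp only [Pi.smul_apply, smul_eq_mul, RingHom.id_apply, Finset.mul_sum]
        exact Finset.sum_congr rfl fun f _ => by ring }
  have hF : ∀ x, F x = 0 := by
    intro x
    have h1 : Submodule.span k b ≤ LinearMap.ker F := by
      rw [Submodule.span_le]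
      intro y hy
      rw [← hB] at hy
      exact hx y (Finset.mem_coe.1 hy)
    have h2 : x ∈ Submodule.span k b := by rw [hspan]; trivial
    exact h1 h2
  funext f
  have h3 := hF (Pi.single f 1)
  change ∑ f', t f' * (Pi.single f 1 : Mon (n + 1) e → k) f' = 0 at h3
  rw [Finset.sum_eq_single f (by
    intro b _ hb
    rw [Pi.single_eq_of_ne hb, mul_zero]) (by simp)] at h3
  simpa using h3

/-- a general family of points is in general position -/
theorem genPos_general [Infinite k] (hSEL : T_SEL) (e q : ℕ)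
    (hq : Fintype.card (Mon (n + 1) e) ≤ q + 1) :
    ∃ Δ : MvPolynomial (Fin q × Fin (n + 1)) k, Δ ≠ 0 ∧ ∀ a : Fin q → Fin (n + 1) → k,
      eval (fun ij => a ij.1 ij.2) Δ ≠ 0 → GenPos e (withInfty a) := by
  classical
  obtain ⟨a0, ha0⟩ := exists_genPos (k := k) (n := n) e q hq
  have hn0 : withInfty a0 none ≠ 0 := by
    intro h
    have := congrFun h 0
    simp [withInfty] at this
  obtain ⟨s, φ, hns, hcard, hφ⟩ := hSEL k n e (Fin q) (withInfty a0) hn0 ha0
  have hc : Fintype.card s = Fintype.card (Mon (n + 1) e) := by simpa using hcard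
  let en : Mon (n + 1) e ≃ s := (Fintype.equivOfCardEq hc).symm
  let P : Option (Fin q) → Fin (n + 1) → MvPolynomial (Fin q × Fin (n + 1)) k := fun o j =>
    o.elim (if j = 0 then 1 else 0) fun i => X (i, j)
  let M : Matrix (Mon (n + 1) e) (Mon (n + 1) e) (MvPolynomial (Fin q × Fin (n + 1)) k) :=
    Matrix.of fun r f => ∏ j, P (en r).1 j ^ f.1 j
  have hev : ∀ (a : Fin q → Fin (n + 1) → k) (o : Option (Fin q)) (j : Fin (n + 1)),
      eval (fun ij : Fin q × Fin (n + 1) => a ij.1 ij.2) (P o j) = withInfty a o j := by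
    intro a o j
    cases o with
    | none =>
      simp only [P, Option.elim_none, withInfty, Pi.single_apply]
      split_ifs <;> simp
    | some i => simp [P, withInfty]
  have hM : ∀ a : Fin q → Fin (n + 1) → k,
      eval (fun ij : Fin q × Fin (n + 1) => a ij.1 ij.2) M.det =
        (Matrix.of fun r f : Mon (n + 1) e => mv e (withInfty a (en r).1) f).det := by
    intro a
    rw [RingHom.map_det]
    congr 1
    ext r f
    simp only [RingHom.mapMatrix_apply, Matrix.map_apply, Matrix.of_apply, M, map_prod, map_pow,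
      hev, mv]
  refine ⟨M.det, fun h0 => ?_, fun a ha => ?_⟩
  · have h1 := hM a0
    rw [h0, map_zero] at h1
    have h2 : (Matrix.of fun r f : Mon (n + 1) e => mv e (withInfty a0 (en r).1) f) *
        (Matrix.of fun f r : Mon (n + 1) e => coeff (fs f.1) (φ (en r))) = 1 := by
      ext r r'
      rw [Matrix.mul_apply]
      simp only [Matrix.of_apply]
      have h3 : ∑ f, mv e (withInfty a0 (en r).1) f * coeff (fs f.1) (φ (en r')) =
          eval (withInfty a0 (en r).1) (φ (en r')) := by
        conv_rhs => rw [← frm_coeff (hφ.homog (en r')), eval_frm]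
        exact Finset.sum_congr rfl fun f _ => mul_comm _ _
      rw [h3, Matrix.one_apply]
      split_ifs with h4
      · rw [h4]; exact hφ.eval_same _
      · exact hφ.eval_ne (en r') (en r) fun h5 => h4 (en.injective h5.symm)
    have h3 := congrArg Matrix.det h2
    rw [Matrix.det_mul, ← h1, zero_mul, Matrix.det_one] at h3
    exact zero_ne_one h3
  · rw [hM a] at ha
    refine genPos_iff.2 fun t ht => ?_
    have h1 : (Matrix.of fun r f : Mon (n + 1) e => mv e (withInfty a (en r).1) f).mulVec t = 0 := by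
      funext r
      simp only [Matrix.mulVec, dotProduct, Matrix.of_apply, Pi.zero_apply]
      rw [← ht (en r).1]
      exact Finset.sum_congr rfl fun f _ => mul_comm _ _
    exact Matrix.eq_zero_of_mulVec_eq_zero ha h1

end Pool.Agent.H27.LV
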