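import Pool.Agent.H27.LV.LVX
import Pool.Agent.H27.LV.Gen

/-!
# MP_70ba79_ag: the Lang-Vojta question for covers branched along general hyperplane sections
-/

set_option autoImplicit false

namespace Pool.Agent.H27.LV

open SC MvPolynomial

/-- Q1 for the affine variety `X` with coordinates `σ` and equations `P`, with the exceptional set
`h = 0` and the function `β`: a curve `C` is given by its function field `K` and the finite set
`S` of its points at infinity, a morphism `C → X` by the functions `z` which are regular outside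
`S` and satisfy the equations; `canDeg D + #S` is `χ(C) = 2 g - 2 + s`. -/
def DegreeBound (k : Type) [Field k] {σ : Type} [Fintype σ] (P : Set (MvPolynomial σ k))
    (h : MvPolynomial σ k) (β : ℤ → ℤ) : Prop :=
  ∀ (K : Type) [Field K] [Algebra k K] [Algebra.EssFiniteType k K], Algebra.trdeg k K = 1 →
  ∀ (S : Finset (DV k K)) (z : σ → K), (∀ p ∈ P, aeval z p = 0) →
  (∀ v, v ∉ S → ∀ j, 0 ≤ v.ord (z j)) → (∃ j, z j ∉ Set.range (algebraMap k K)) →
  aeval z h ≠ 0 → ∀ D : Derivation k K K, D ≠ 0 → (deg k z : ℤ) ≤ β (canDeg D + S.card)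

/-- Equations of the cover `X` of the affine variety `Y` with equations `Q`: those of `Y` and
`x_i ^ μ_i = a_i0 + ∑ a_ij y_j`. -/
def coverEqs {k : Type} [Field k] {n q : ℕ} (Q : Set (MvPolynomial (Fin n) k))
    (a : Fin q → Fin (n + 1) → k) (μ : Fin q → ℕ) : Set (MvPolynomial (Fin n ⊕ Fin q) k) :=
  {p | (∃ g ∈ Q, p = rename Sum.inl g) ∨ ∃ i, p = X (Sum.inr i) ^ μ i -
    (C (a i 0) + ∑ j : Fin n, C (a i j.succ) * X (Sum.inl j))}

lemma mem_range_of_isAlgebraic {k K : Type} [Field k] [IsAlgClosed k] [Field K] [Algebra k K]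
    {z : K} (hz : IsAlgebraic k z) : z ∈ Set.range (algebraMap k K) := by
  have hint : IsIntegral k z := hz.isIntegral
  have h1 : (minpoly k z).degree = 1 := IsAlgClosed.degree_eq_one_of_irreducible k
    (minpoly.irreducible hint)
  obtain ⟨c, hc⟩ := minpoly.mem_range_of_degree_eq_one k z h1
  exact ⟨c, hc⟩

lemma choose_card (hCRD : T_CRD) (hCRR : T_CRR) (n d : ℕ) :
    Fintype.card (Mon n (d + 1)) = (n + d).choose (d + 1) := by
  have h1 := (hCRR n d).2
  rw [hCRD n (d + 1), hCRD n d] at h1
  have h2 : (n + (d + 1)).choose n = (n + (d + 1)).choose (d + 1) := Nat.choose_symm_add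
  have h3 : (n + d).choose n = (n + d).choose d := Nat.choose_symm_add
  have h4 : (n + (d + 1)).choose (d + 1) = (n + d).choose d + (n + d).choose (d + 1) :=
    Nat.choose_succ_succ (n + d) d
  omega

/-- The degree bound for all the covers with branch hyperplanes in general position. -/
theorem cover_bound (hCRD : T_CRD) (hCRR : T_CRR) (hLVX : T_LVX) (k : Type) [Field k]
    [IsAlgClosed k] [CharZero k] (n q d m : ℕ) (hm : 2 ≤ m)
    (hd : (m + 1) * n ≤ (m - 1) * (d + 1)) (a : Fin q → Fin (n + 1) → k)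
    (ha : GenPos (d + 1) (withInfty a)) (μ : Fin q → ℕ) (hμ : ∀ i, m ≤ μ i)
    (Q : Set (MvPolynomial (Fin n) k)) :
    DegreeBound k (coverEqs Q a μ) (∏ i, X (Sum.inr i))
      (fun χ => (m * (n + d).choose (d + 1) : ℕ) * χ) := by
  intro K _ _ _ htr S z hP hreg hnc hh D hD
  obtain ⟨y, hy⟩ : ∃ y : Fin n → K, y = fun j => z (Sum.inl j) := ⟨_, rfl⟩
  obtain ⟨x, hx⟩ : ∃ x : Fin q → K, x = fun i => z (Sum.inr i) := ⟨_, rfl⟩
  have hz : z = Sum.elim y x := by
    funext s
    rcases s with j | i
    · rw [hy]; rfl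
    · rw [hx]; rfl
  have hx0 : ∀ i, x i ≠ 0 := by
    intro i h0
    apply hh
    rw [map_prod]
    refine Finset.prod_eq_zero (Finset.mem_univ i) ?_
    rw [aeval_X, ← h0, hx]
  have hxe : ∀ i, x i ^ μ i = ell (a i) (xx y) := by
    intro i
    have h1 := hP _ (Or.inr ⟨i, rfl⟩)
    simp only [map_sub, map_pow, aeval_X, map_add, map_sum, map_mul, aeval_C] at h1
    rw [sub_eq_zero] at h1
    rw [hx]
    simp only
    rw [h1]
    unfold ell xx
    rw [Fin.sum_univ_succ]
    simp only [Fin.cons_zero, Fin.cons_succ, mul_one, hy]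
  have hnc' : ∃ j, y j ∉ Set.range (algebraMap k K) := by
    by_contra hcon
    push Not at hcon
    obtain ⟨s, hs⟩ := hnc
    apply hs
    rcases s with j | i
    · have := hcon j
      rw [hy] at this
      exact this
    · have h1 : ell (a i) (xx y) ∈ Set.range (algebraMap k K) := by
        have h2 : ∀ j, xx y j ∈ (algebraMap k K).range := by
          intro j
          refine Fin.cases ?_ (fun j => ?_) j
          · exact one_mem _
          · exact hcon j
        have h3 : ell (a i) (xx y) ∈ (algebraMap k K).range :=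
          sum_mem fun j _ => mul_mem ⟨_, rfl⟩ (h2 j)
        exact h3
      obtain ⟨c, hc⟩ := h1
      have h4 : IsAlgebraic k (x i ^ μ i) := by
        rw [hxe i, ← hc]
        exact isAlgebraic_algebraMap c
      have h5 : IsAlgebraic k (x i) := h4.of_pow (by have := hμ i; omega)
      have h6 := mem_range_of_isAlgebraic h5
      rw [hx] at h6
      exact h6
  have h7 := (hLVX k n q d m a μ hm hμ hd (fun g hg h0 hi => ha g hg fun o => by
    cases o with
    | none => exact h0
    | some i => exact hi i) K htr S y x (fun v hv j => by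
      have := hreg v hv (Sum.inl j)
      rw [hy]
      exact this) hnc' hx0 hxe D hD).2
  rw [← choose_card hCRD hCRR, hz]
  push_cast
  exact h7

/-- number of pairs as a sum over the places -/
lemma ncard_pairs {V ι : Type} [Fintype ι] (P : V → ι → Prop) [∀ v i, Decidable (P v i)]
    (h : {v : V | ((Finset.univ.filter fun i => P v i).card : ℤ) ≠ 0}.Finite) :
    {vi : V × ι | P vi.1 vi.2}.Finite ∧
    ({vi : V × ι | P vi.1 vi.2}.ncard : ℤ) =
      ∑ᶠ v : V, ((Finset.univ.filter fun i => P v i).card : ℤ) := by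
  classical
  obtain ⟨W, hW⟩ : ∃ W : Finset V, W = h.toFinset := ⟨_, rfl⟩
  have hmem : ∀ v i, P v i → v ∈ W := by
    intro v i hp
    rw [hW, Set.Finite.mem_toFinset]
    simp only [Set.mem_ofPred_eq]
    have : 0 < (Finset.univ.filter fun i => P v i).card :=
      Finset.card_pos.2 ⟨i, by simpa using hp⟩
    omega
  have hT : {vi : V × ι | P vi.1 vi.2} =
      (((W ×ˢ (Finset.univ : Finset ι)).filter fun vi => P vi.1 vi.2 : Finset (V × ι)) :
        Set (V × ι)) := by
    ext ⟨v, i⟩
    simp only [Set.mem_ofPred_eq, Finset.coe_filter, Finset.mem_product, Finset.mem_univ, and_true]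
    exact ⟨fun hp => ⟨hmem v i hp, hp⟩, fun hp => hp.2⟩
  rw [hT]
  refine ⟨Finset.finite_toSet _, ?_⟩
  rw [Set.ncard_coe_finset, Finset.card_filter, Finset.sum_product]
  rw [finsum_eq_sum_of_support_subset _ (s := W) (by
    intro v hv
    rw [hW, Finset.mem_coe, Set.Finite.mem_toFinset]
    exact hv)]
  push_cast
  refine Finset.sum_congr rfl fun v _ => ?_
  rw [Finset.card_filter]
  push_cast
  rfl

/-- The level one inequality for points in general position. -/
theorem level_one (hCRD : T_CRD) (hCRR : T_CRR) (hDUA : T_DUA) (hSMT : T_SMT) (k : Type) [Field k]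
    [IsAlgClosed k] [CharZero k] (n d : ℕ) (ι : Type) [Fintype ι] (a : ι → Fin (n + 1) → k)
    (hι : Fintype.card ι = (n + d + 1).choose n) (ha : GenPos (d + 1) a) (K : Type) [Field K]
    [Algebra k K] [Algebra.EssFiniteType k K] (htr : Algebra.trdeg k K = 1) (y : Fin n → K)
    (hy : ∃ j, y j ∉ Set.range (algebraMap k K)) (hl : ∀ i, ell (a i) (xx y) ≠ 0)
    (D : Derivation k K K) (hD : D ≠ 0) :
    {vi : DV k K × ι | 0 < vi.1.ord (ell (a vi.2) (xx y)) + poleOrder vi.1 y}.Finite ∧
    (((n + d).choose n : ℤ) - (n + d).choose (d + 1)) * deg k y ≤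
      ({vi : DV k K × ι | 0 < vi.1.ord (ell (a vi.2) (xx y)) + poleOrder vi.1 y}.ncard : ℤ) +
        (n + d).choose (d + 1) * canDeg D := by
  classical
  obtain ⟨φ, hφ⟩ := hDUA k n (d + 1) ι a (by rw [hι, hCRD n (d + 1)]; rfl) ha
  have h1 := (hSMT k K htr n d ι a φ D y hφ hD hl hy).1
  obtain ⟨h2, h3⟩ := ncard_pairs (V := DV k K) (ι := ι)
    (fun v i => 0 < v.ord (ell (a i) (xx y)) + poleOrder v y)
    (finite_card_ne htr (fun i => ell (a i) (xx y)) y)
  refine ⟨h2, ?_⟩
  rw [h3, ← choose_card hCRD hCRR, ← hCRD]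
  exact h1

end Pool.Agent.H27.LV
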