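import Pool.Agent.H27.LV.Curve
import Pool.Agent.H27.LV.Basic

/-!
# MP_70ba79_ag: the level one inequality (target SMT)
-/

set_option autoImplicit false

namespace Pool.Agent.H27.LV

open SC

section

variable {k K : Type} [Field k] [IsAlgClosed k] [CharZero k] [Field K] [Algebra k K]
  [Algebra.EssFiniteType k K]

lemma cast_deg (htr : Algebra.trdeg k K = 1) {ι : Type} [Fintype ι] (z : ι → K) :
    ((deg k z : ℕ) : ℤ) = ∑ᶠ v : DV k K, (poleOrder v z : ℤ) := by
  unfold deg
  have h := pfi k K htr ι z
  exact AddMonoidHom.map_finsum (Nat.castAddMonoidHom ℤ) (f := fun v : DV k K => poleOrder v z)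
    (by exact h)

/-- finiteness of the set of places where a linear form vanishes relative to the poles -/
lemma finite_card_ne (htr : Algebra.trdeg k K = 1) {n : ℕ} {ι : Type} [Fintype ι]
    [DecidableEq ι] (f : ι → K) (y : Fin n → K) :
    {v : DV k K | ((Finset.univ.filter fun i => 0 < v.ord (f i) + poleOrder v y).card : ℤ) ≠
      0}.Finite := by
  refine ((Set.finite_iUnion fun i => (pfm k K htr (f i)).1).union
    (pfi k K htr (Fin n) y)).subset fun v hv => ?_
  simp only [Set.mem_union, Set.mem_iUnion, Set.mem_ofPred_eq] at hv ⊢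
  by_contra hcon
  push Not at hcon
  apply hv
  rw [Finset.filter_false_of_mem]
  · simp
  · intro i _
    rw [hcon.1 i, hcon.2]
    simp

end

theorem smt (hMIN : T_MIN) (hLOC : T_LOC) (hHYV : T_HYV) (hDFI : T_DFI) : T_SMT := by
  intro k K _ _ _ _ _ _ htr n d ι _ _ a φ D y hφ hD hl hy
  obtain ⟨j, hj⟩ := hy
  have hDj : D (y j) ≠ 0 := fun h => hj (ker k K htr D hD _ h)
  obtain ⟨κ, hκ⟩ := hMIN k K n d ι a φ D y hφ ⟨j, hDj⟩
  constructor
  · obtain ⟨R, hR⟩ : ∃ R, R = (Matrix.of fun p q : Mon n (d + 1) =>
      (uu D (xx y) a φ (mono K (insm 0 q))).coeff (fs (κ p).1)).det := ⟨_, rfl⟩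
    rw [← hR] at hκ
    obtain ⟨hRf, hR0⟩ := pfm k K htr R
    obtain ⟨E, hE⟩ : ∃ E : ℤ, E = Fintype.card (Mon (n + 1) d) := ⟨_, rfl⟩
    obtain ⟨ρ, hρ⟩ : ∃ ρ : ℤ, ρ = Fintype.card (Mon n (d + 1)) := ⟨_, rfl⟩
    obtain ⟨N, hN⟩ : ∃ N : DV k K → ℤ, N = fun v => ((Finset.univ.filter fun i =>
      0 < v.ord (ell (a i) (xx y)) + poleOrder v y).card : ℤ) := ⟨_, rfl⟩
    have hNf : (Function.support N).Finite := by
      rw [hN]
      exact finite_card_ne htr (fun i => ell (a i) (xx y)) y
    have hPf : (Function.support fun v : DV k K => (poleOrder v y : ℤ)).Finite := by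
      refine (pfi k K htr (Fin n) y).subset fun v hv => ?_
      simpa using hv
    have hδf : (Function.support fun v : DV k K => ordD v D).Finite := hDFI k K htr D hD
    have hloc : ∀ v : DV k K, 0 ≤ v.ord R - ((E - ρ) * poleOrder v y + ρ * ordD v D - N v) := by
      intro v
      have h := hLOC k K n d ι a φ D v (ordD v D) y κ (Finset.univ.filter fun i =>
        0 < v.ord (ell (a i) (xx y)) + poleOrder v y) hφ (dor k K htr D hD v).2.1 hl
        (fun i => by simp)
      rw [← hR, ← hE, ← hρ] at h
      rcases h with h | h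
      · exact absurd h hκ
      · rw [hN]
        simp only
        omega
    have hsum := finsum_nonneg hloc
    have e1 : ∑ᶠ v : DV k K, (v.ord R - ((E - ρ) * poleOrder v y + ρ * ordD v D - N v)) =
        0 - ((E - ρ) * deg k y + ρ * (- canDeg D) - ∑ᶠ v, N v) := by
      have f1 : (Function.support fun v : DV k K => (E - ρ) * (poleOrder v y : ℤ)).Finite :=
        hPf.subset fun v hv => by
          simp only [Function.mem_support] at hv ⊢
          exact right_ne_zero_of_mul hv
      have f2 : (Function.support fun v : DV k K => ρ * ordD v D).Finite :=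
        hδf.subset fun v hv => by
          simp only [Function.mem_support] at hv ⊢
          exact right_ne_zero_of_mul hv
      have f3 : (Function.support fun v : DV k K =>
          (E - ρ) * (poleOrder v y : ℤ) + ρ * ordD v D).Finite :=
        (f1.union f2).subset (Function.support_add _ _)
      have f4 : (Function.support fun v : DV k K =>
          (E - ρ) * (poleOrder v y : ℤ) + ρ * ordD v D - N v).Finite :=
        (f3.union hNf).subset (Function.support_sub _ _)
      rw [finsum_sub_distrib hRf f4, hR0, finsum_sub_distrib f3 hNf, finsum_add_distrib f1 f2,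
        ← mul_finsum, ← mul_finsum, cast_deg htr]
      unfold canDeg
      ring
    rw [e1] at hsum
    rw [← hE, ← hρ]
    have e2 : ∑ᶠ v : DV k K, ((Finset.univ.filter fun i => 0 < v.ord (ell (a i) (xx y)) +
        poleOrder v y).card : ℤ) = ∑ᶠ v, N v := by rw [hN]
    rw [e2]
    nlinarith [hsum]
  · intro v
    refine hHYV k K n d ι a φ v y _ hφ (rat k K htr v).2 fun i hi => ?_
    right
    simpa using hi

end Pool.Agent.H27.LV
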