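import Pool.Agent.H27.LV.Curve
import Pool.Agent.H27.LV.Basic
import Pool.Agent.H27.LV.SMT

/-!
# MP_70ba79_ag: consequence of the level one inequality (target LVX)
-/

set_option autoImplicit false

namespace Pool.Agent.H27.LV

open SC MvPolynomial

section

variable {k K : Type} [Field k] [Field K] [Algebra k K] (v : DV k K)

lemma npole_le {ι : Type} [Fintype ι] (z : ι → K) (i : ι) :
    -(poleOrder v z : ℤ) ≤ v.ord (z i) := by
  have h : (-(v.ord (z i))).toNat ≤ poleOrder v z :=
    Finset.le_sup (f := fun i => (-(v.ord (z i))).toNat) (Finset.mem_univ i)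
  omega

lemma poleOrder_le {ι : Type} [Fintype ι] (z : ι → K) (p : ℕ)
    (h : ∀ i, -(p : ℤ) ≤ v.ord (z i)) : poleOrder v z ≤ p := by
  refine Finset.sup_le fun i _ => ?_
  have := h i
  omega

lemma ge_ell {n : ℕ} (a : Fin (n + 1) → k) (y : Fin n → K) :
    ge v (-(poleOrder v y : ℤ)) (ell a (xx y)) := by
  unfold ell
  refine ge_sum v _ _ _ fun j _ => ?_
  have h1 : ge v (-(poleOrder v y : ℤ)) (xx y j) := by
    refine Fin.cases ?_ (fun j => ?_) j
    · refine (ge_one v).mono ?_
      omega
    · exact Or.inr (npole_le v y j)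
  have h2 := (ge_const v (a j)).mul h1
  rwa [zero_add] at h2

end

theorem lvx (hSEL : T_SEL) (hCRR : T_CRR) (hSMT : T_SMT) : T_LVX := by
  classical
  intro k _ _ _ n q d m a μ hm hμ hd hgen K _ _ _ htr S y x hreg hnc hx0 hx D hD
  obtain ⟨hr1, hr2⟩ := hCRR n d
  obtain ⟨E, hE⟩ : ∃ E, E = Fintype.card (Mon (n + 1) d) := ⟨_, rfl⟩
  obtain ⟨ρ, hρ⟩ : ∃ ρ, ρ = Fintype.card (Mon n (d + 1)) := ⟨_, rfl⟩
  rw [← hE, ← hρ] at hr1 hr2
  -- the points
  obtain ⟨a', ha'⟩ : ∃ a' : Option (Fin q) → Fin (n + 1) → k,
    a' = fun o => o.elim (Pi.single 0 1) a := ⟨_, rfl⟩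
  have hn0 : a' none ≠ 0 := by
    rw [ha']
    intro h
    have := congrFun h 0
    simp at this
  obtain ⟨s, φ, hns, hcard, hφ⟩ := hSEL k n (d + 1) (Fin q) a' hn0 (by
    intro g hg hev
    refine hgen g hg ?_ fun i => ?_
    · have := hev none
      rw [ha'] at this
      exact this
    · have := hev (some i)
      rw [ha'] at this
      exact this)
  have hl0 : ell (a' none) (xx y) = 1 := by
    rw [ha']
    unfold ell
    rw [Fin.sum_univ_succ]
    simp [xx]
  have hli : ∀ i, ell (a' (some i)) (xx y) = x i ^ μ i := by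
    intro i
    rw [hx i, ha']
    rfl
  have hlne : ∀ o : Option (Fin q), ell (a' o) (xx y) ≠ 0 := by
    intro o
    cases o with
    | none => rw [hl0]; exact one_ne_zero
    | some i => rw [hli]; exact pow_ne_zero _ (hx0 i)
  have hordx : ∀ (v : DV k K) i, v.ord (ell (a' (some i)) (xx y)) = μ i * v.ord (x i) := by
    intro v i
    rw [hli, v.ord_pow]
  obtain ⟨h1, h2⟩ := hSMT k K htr n d s (fun i : s => a' i.1) φ D y hφ hD (fun i => hlne i.1) hnc
  obtain ⟨N, hN⟩ : ∃ N : DV k K → ℤ, N = fun v => ((Finset.univ.filter fun i : s =>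
      0 < v.ord (ell (a' i.1) (xx y)) + poleOrder v y).card : ℤ) := ⟨_, rfl⟩
  have hNf : (Function.support N).Finite := by
    rw [hN]
    exact finite_card_ne htr (fun i : s => ell (a' i.1) (xx y)) y
  have hPf : (Function.support fun v : DV k K => (poleOrder v y : ℤ)).Finite := by
    refine (pfi k K htr (Fin n) y).subset fun v hv => ?_
    simpa using hv
  have e2 : ∑ᶠ v : DV k K, ((Finset.univ.filter fun i : s => 0 < v.ord (ell (a' i.1) (xx y)) +
      poleOrder v y).card : ℤ) = ∑ᶠ v, N v := by rw [hN]
  rw [e2, ← hE, ← hρ] at h1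
  have hNρ : ∀ v, N v ≤ ρ := by
    intro v
    rw [hN, hρ]
    simp only
    exact_mod_cast h2 v
  -- the finite set of the points different from infinity
  obtain ⟨s', hs'⟩ : ∃ s' : Finset (Option (Fin q)), s' = s.erase none := ⟨_, rfl⟩
  have hs'c : s'.card + 1 = E + ρ := by
    rw [hs', Finset.card_erase_add_one hns, hcard, hr2]
  have hge : ∀ (v : DV k K) (o : Option (Fin q)),
      0 ≤ v.ord (ell (a' o) (xx y)) + poleOrder v y := by
    intro v o
    rcases ge_ell v (a' o) y with h | h
    · exact absurd h (hlne o)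
    · omega
  have hNle : ∀ v : DV k K, N v ≤ (∑ o ∈ s', if 0 < v.ord (ell (a' o) (xx y)) + poleOrder v y
      then (1 : ℤ) else 0) ∨ v ∈ S := by
    intro v
    by_cases hv : v ∈ S
    · exact Or.inr hv
    left
    have hp : poleOrder v y = 0 := by
      rw [← Nat.le_zero]
      refine poleOrder_le v y 0 fun j => ?_
      have := hreg v hv j
      simpa using this
    rw [hN]
    simp only
    rw [Finset.card_filter]
    push_cast
    rw [Finset.sum_coe_sort s (fun o => if 0 < v.ord (ell (a' o) (xx y)) + (poleOrder v y : ℤ)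
      then (1 : ℤ) else 0), hs', ← Finset.add_sum_erase s _ hns]
    rw [hl0, v.ord_one, hp]
    simp
  have hpt : ∀ v : DV k K, 0 ≤ (∑ o ∈ s', (v.ord (ell (a' o) (xx y)) + (poleOrder v y : ℤ))) +
      (if v ∈ S then (m : ℤ) * ρ else 0) - m * N v := by
    intro v
    rcases hNle v with h | hv
    · have h3 : (m : ℤ) * N v ≤ ∑ o ∈ s', (v.ord (ell (a' o) (xx y)) + (poleOrder v y : ℤ)) ∨
          v ∈ S := by
        by_cases hv : v ∈ S
        · exact Or.inr hv
        left
        have hp : poleOrder v y = 0 := by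
          rw [← Nat.le_zero]
          refine poleOrder_le v y 0 fun j => ?_
          have := hreg v hv j
          simpa using this
        calc (m : ℤ) * N v ≤ m * ∑ o ∈ s', (if 0 < v.ord (ell (a' o) (xx y)) + poleOrder v y
              then (1 : ℤ) else 0) := mul_le_mul_of_nonneg_left h (by positivity)
          _ = ∑ o ∈ s', (m : ℤ) * (if 0 < v.ord (ell (a' o) (xx y)) + poleOrder v y
              then (1 : ℤ) else 0) := Finset.mul_sum _ _ _
          _ ≤ _ := by
            refine Finset.sum_le_sum fun o ho => ?_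
            rw [hs', Finset.mem_erase] at ho
            obtain ⟨i, rfl⟩ := Option.ne_none_iff_exists'.1 ho.1
            have h4 := hge v (some i)
            rw [hp] at h4 ⊢
            rw [hordx] at h4 ⊢
            split_ifs with h5
            · simp only [Nat.cast_zero, add_zero, mul_one] at h5 h4 ⊢
              have h6 : (0 : ℤ) < v.ord (x i) := by
                by_contra hcon
                push Not at hcon
                have : (μ i : ℤ) * v.ord (x i) ≤ 0 :=
                  mul_nonpos_of_nonneg_of_nonpos (by positivity) hcon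
                omega
              have h7 : (m : ℤ) ≤ μ i := by exact_mod_cast hμ i
              nlinarith
            · simpa using h4
      rcases h3 with h3 | hv
      · split_ifs with hv
        · have : (0 : ℤ) ≤ m * ρ := by positivity
          omega
        · omega
      · rw [if_pos hv]
        have h5 : 0 ≤ ∑ o ∈ s', (v.ord (ell (a' o) (xx y)) + (poleOrder v y : ℤ)) :=
          Finset.sum_nonneg fun o _ => hge v o
        have h6 : (m : ℤ) * N v ≤ m * ρ := mul_le_mul_of_nonneg_left (hNρ v) (by positivity)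
        omega
    · rw [if_pos hv]
      have h5 : 0 ≤ ∑ o ∈ s', (v.ord (ell (a' o) (xx y)) + (poleOrder v y : ℤ)) :=
        Finset.sum_nonneg fun o _ => hge v o
      have h6 : (m : ℤ) * N v ≤ m * ρ := mul_le_mul_of_nonneg_left (hNρ v) (by positivity)
      omega
  have hof : ∀ o : Option (Fin q),
      (Function.support fun v : DV k K => v.ord (ell (a' o) (xx y)) + (poleOrder v y : ℤ)).Finite :=
    fun o => ((pfm k K htr (ell (a' o) (xx y))).1.union hPf).subset (Function.support_add _ _)
  have hsf : (Function.support fun v : DV k K =>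
      ∑ o ∈ s', (v.ord (ell (a' o) (xx y)) + (poleOrder v y : ℤ))).Finite := by
    refine (Set.Finite.biUnion s'.finite_toSet fun o _ => hof o).subset fun v hv => ?_
    simp only [Function.mem_support] at hv
    obtain ⟨o, ho, hne⟩ := Finset.exists_ne_zero_of_sum_ne_zero hv
    exact Set.mem_biUnion (Finset.mem_coe.2 ho) hne
  have hSf : (Function.support fun v : DV k K => if v ∈ S then (m : ℤ) * ρ else 0).Finite := by
    refine S.finite_toSet.subset fun v hv => ?_
    by_contra hcon
    apply hv
    exact if_neg hcon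
  have hmf : (Function.support fun v : DV k K => (m : ℤ) * N v).Finite :=
    hNf.subset fun v hv => by
      simp only [Function.mem_support] at hv ⊢
      exact right_ne_zero_of_mul hv
  have hsum := finsum_nonneg hpt
  rw [finsum_sub_distrib ((hsf.union hSf).subset (Function.support_add _ _)) hmf,
    finsum_add_distrib hsf hSf, ← mul_finsum, finsum_sum_comm s' _ (fun o _ => hof o)] at hsum
  have e3 : ∀ o : Option (Fin q), ∑ᶠ v : DV k K, (v.ord (ell (a' o) (xx y)) +
      (poleOrder v y : ℤ)) = deg k y := by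
    intro o
    rw [finsum_add_distrib (pfm k K htr _).1 hPf, (pfm k K htr _).2, zero_add, cast_deg htr]
  have e4 : ∑ᶠ v : DV k K, (if v ∈ S then (m : ℤ) * ρ else 0) = S.card * (m * ρ) := by
    have : ∑ᶠ v : DV k K, (if v ∈ S then (m : ℤ) * ρ else 0) = ∑ v ∈ S, (m : ℤ) * ρ := by
      rw [finsum_eq_sum_of_support_subset _ (s := S) (by
        intro v hv
        by_contra hcon
        apply hv
        exact if_neg hcon)]
      exact Finset.sum_congr rfl fun v hv => if_pos hv
    rw [this, Finset.sum_const, nsmul_eq_mul]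
  simp only [e3, e4, Finset.sum_const, nsmul_eq_mul] at hsum
  -- comparison of the degrees
  have hpo : ∀ v : DV k K, poleOrder v (Sum.elim y x) ≤ poleOrder v y := by
    intro v
    refine poleOrder_le v _ _ fun i => ?_
    rcases i with j | i
    · exact npole_le v y j
    · simp only [Sum.elim_inr]
      have h4 := hge v (some i)
      rw [hordx] at h4
      have h7 : (2 : ℤ) ≤ μ i := by exact_mod_cast hm.trans (hμ i)
      by_contra hcon
      push Not at hcon
      nlinarith
  have hdeg : (deg k (Sum.elim y x) : ℤ) ≤ deg k y := by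
    rw [cast_deg htr, cast_deg htr]
    have hPf' : (Function.support fun v : DV k K =>
        (poleOrder v (Sum.elim y x) : ℤ)).Finite := by
      refine (pfi k K htr _ (Sum.elim y x)).subset fun v hv => ?_
      simpa using hv
    have h5 : 0 ≤ ∑ᶠ v : DV k K, ((poleOrder v y : ℤ) - poleOrder v (Sum.elim y x)) := by
      refine finsum_nonneg fun v => ?_
      have := hpo v
      omega
    rw [finsum_sub_distrib hPf hPf'] at h5
    omega
  obtain ⟨j0, -⟩ := hnc
  have hnpos : 0 < n := j0.pos
  have hcoef : (m + 1) * ρ ≤ (m - 1) * E := by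
    have h5 : n * ((m + 1) * ρ) ≤ n * ((m - 1) * E) := by
      calc n * ((m + 1) * ρ) = ((m + 1) * n) * ρ := by ring
        _ ≤ ((m - 1) * (d + 1)) * ρ := Nat.mul_le_mul_right _ hd
        _ = (m - 1) * ((d + 1) * ρ) := by ring
        _ = (m - 1) * (n * E) := by rw [hr1]
        _ = n * ((m - 1) * E) := by ring
    exact Nat.le_of_mul_le_mul_left h5 hnpos
  have hcoef' : ((m : ℤ) + 1) * ρ ≤ ((m : ℤ) - 1) * E := by
    have : ((m - 1 : ℕ) : ℤ) = (m : ℤ) - 1 := by
      rw [Nat.cast_sub (by omega)]
      rfl
    rw [← this]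
    exact_mod_cast hcoef
  rw [← hE, ← hρ]
  have hs'c' : (s'.card : ℤ) = E + ρ - 1 := by
    have : ((s'.card + 1 : ℕ) : ℤ) = E + ρ := by rw [hs'c]; push_cast; rfl
    push_cast at this
    linarith
  have hmain : (((m : ℤ) - 1) * E - (m + 1) * ρ + 1) * deg k y ≤
      m * ρ * (canDeg D + S.card) := by
    rw [hs'c'] at hsum
    have hm0 : (0 : ℤ) ≤ m := by positivity
    have h6 := mul_le_mul_of_nonneg_left h1 hm0
    nlinarith
  have hc1 : 0 ≤ ((m : ℤ) - 1) * E - (m + 1) * ρ := by linarith
  have hd0 : (0 : ℤ) ≤ deg k (Sum.elim y x) := by positivity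
  constructor
  · refine le_trans ?_ hmain
    exact mul_le_mul_of_nonneg_left hdeg (by linarith)
  · refine le_trans ?_ hmain
    nlinarith

end Pool.Agent.H27.LV
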