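import Pool.Agent.H27.LV.Targets

/-!
# MP_70ba79_ag: targets of the board `lv_modules`, second part: places of curves, final statement
-/

set_option autoImplicit false

namespace Pool.Agent.H27.LV

open MvPolynomial SC

/-- DUA: dual basis from general position -/
def T_DUA : Prop := ∀ (k : Type) [Field k] (n d : ℕ) (ι : Type) [Fintype ι]
  (a : ι → Fin (n + 1) → k), Fintype.card ι = Fintype.card (Mon (n + 1) d) →
  (∀ g : MvPolynomial (Fin (n + 1)) k, g.IsHomogeneous d → (∀ i, eval (a i) g = 0) → g = 0) →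
  ∃ φ : ι → MvPolynomial (Fin (n + 1)) k, DualBasis d a φ

/-- RAT: the places are rational -/
def T_RAT : Prop := ∀ (k K : Type) [Field k] [IsAlgClosed k] [CharZero k] [Field K] [Algebra k K]
  [Algebra.EssFiniteType k K], Algebra.trdeg k K = 1 → ∀ v : DV k K, v.deg = 1 ∧
  ∀ z : K, 0 ≤ v.ord z → ∃ c : k, ge v 1 (z - algebraMap k K c)

/-- PFM: product formula -/
def T_PFM : Prop := ∀ (k K : Type) [Field k] [IsAlgClosed k] [CharZero k] [Field K] [Algebra k K]
  [Algebra.EssFiniteType k K], Algebra.trdeg k K = 1 → ∀ f : K,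
  {v : DV k K | v.ord f ≠ 0}.Finite ∧ ∑ᶠ v : DV k K, v.ord f = 0

/-- DOR: orders of derivatives -/
def T_DOR : Prop := ∀ (k K : Type) [Field k] [IsAlgClosed k] [CharZero k] [Field K] [Algebra k K]
  [Algebra.EssFiniteType k K], Algebra.trdeg k K = 1 → ∀ D : Derivation k K K, D ≠ 0 →
  ∀ v : DV k K, D v.unif ≠ 0 ∧ DOrd v D (ordD v D) ∧
  ∀ z : K, v.ord z ≠ 0 → D z ≠ 0 ∧ v.ord (D z) = v.ord z - 1 + ordD v D

/-- KER: constants of a derivation -/
def T_KER : Prop := ∀ (k K : Type) [Field k] [IsAlgClosed k] [CharZero k] [Field K] [Algebra k K]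
  [Algebra.EssFiniteType k K], Algebra.trdeg k K = 1 → ∀ D : Derivation k K K, D ≠ 0 →
  ∀ z : K, D z = 0 → z ∈ Set.range (algebraMap k K)

/-- DFI: a derivation has finitely many zeros and poles -/
def T_DFI : Prop := ∀ (k K : Type) [Field k] [IsAlgClosed k] [CharZero k] [Field K] [Algebra k K]
  [Algebra.EssFiniteType k K], Algebra.trdeg k K = 1 → ∀ D : Derivation k K K, D ≠ 0 →
  {v : DV k K | ordD v D ≠ 0}.Finite

/-- PFI: finitely many poles -/
def T_PFI : Prop := ∀ (k K : Type) [Field k] [IsAlgClosed k] [CharZero k] [Field K] [Algebra k K]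
  [Algebra.EssFiniteType k K], Algebra.trdeg k K = 1 → ∀ (ι : Type) [Fintype ι] (z : ι → K),
  {v : DV k K | poleOrder v z ≠ 0}.Finite

/-- Final: Lang-Vojta for the covers `x_i ^ μ_i = a_i0 + ∑ a_ij y_j` of affine varieties, `a_i` in
general position with respect to the forms of degree `d + 1` -/
def T_LVX : Prop := ∀ (k : Type) [Field k] [IsAlgClosed k] [CharZero k] (n q d m : ℕ)
  (a : Fin q → Fin (n + 1) → k) (μ : Fin q → ℕ), 2 ≤ m → (∀ i, m ≤ μ i) →
  (m + 1) * n ≤ (m - 1) * (d + 1) →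
  (∀ g : MvPolynomial (Fin (n + 1)) k, g.IsHomogeneous (d + 1) →
    eval (Pi.single 0 1) g = 0 → (∀ i, eval (a i) g = 0) → g = 0) →
  ∀ (K : Type) [Field K] [Algebra k K] [Algebra.EssFiniteType k K], Algebra.trdeg k K = 1 →
  ∀ (S : Finset (DV k K)) (y : Fin n → K) (x : Fin q → K),
  (∀ v, v ∉ S → ∀ j, 0 ≤ v.ord (y j)) → (∃ j, y j ∉ Set.range (algebraMap k K)) →
  (∀ i, x i ≠ 0) → (∀ i, x i ^ μ i = ell (a i) (xx y)) →
  ∀ D : Derivation k K K, D ≠ 0 →
  ((((m : ℤ) - 1) * Fintype.card (Mon (n + 1) d) - (m + 1) * Fintype.card (Mon n (d + 1)) + 1) *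
    deg k (Sum.elim y x) ≤ m * Fintype.card (Mon n (d + 1)) * (canDeg D + S.card)) ∧
  (deg k (Sum.elim y x) ≤ m * Fintype.card (Mon n (d + 1)) * (canDeg D + S.card))

end Pool.Agent.H27.LV
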