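import Pool.Agent.H27.LV.LVX2
import Pool.Agent.H27.LV.HOM2
import Pool.Agent.H27.LV.Final

/-!
# MP_70ba79_ag: level one inequality for forms of any degree and its consequence for Q1
-/

set_option autoImplicit false

namespace Pool.Agent.H27.LV

open SC MvPolynomial

/-- the form `F = frm c` is not constant up to a factor, and, unless it is linear, it is squarefree
and has no factor of positive degree with constant coefficients -/
def Adm (k : Type) {K : Type} [Field k] [Field K] [Algebra k K] {n e : ℕ}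
    (c : Mon (n + 1) e → K) : Prop :=
  (∃ β γ, c β ≠ 0 ∧ c γ / c β ∉ Set.range (algebraMap k K)) ∧
  (e = 1 ∨ (Squarefree (frm c) ∧ ∀ P : MvPolynomial (Fin (n + 1)) k,
    MvPolynomial.map (algebraMap k K) P ∣ frm c → ∃ s : k, P = C s))

/-- Q1 for the affine variety with coordinates `σ` and equations `P`, for the curves whose generic
point does not satisfy `exc`, with the function `β` (see `DegreeBound`) -/
def DegreeBoundOff (k : Type) [Field k] {σ : Type} [Fintype σ] (P : Set (MvPolynomial σ k))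
    (exc : ∀ (K : Type) [Field K] [Algebra k K], (σ → K) → Prop) (β : ℤ → ℤ) : Prop :=
  ∀ (K : Type) [Field K] [Algebra k K] [Algebra.EssFiniteType k K], Algebra.trdeg k K = 1 →
  ∀ (S : Finset (DV k K)) (z : σ → K), (∀ p ∈ P, aeval z p = 0) →
  (∀ v, v ∉ S → ∀ j, 0 ≤ v.ord (z j)) → (∃ j, z j ∉ Set.range (algebraMap k K)) →
  ¬ exc K z → ∀ D : Derivation k K K, D ≠ 0 → (deg k z : ℤ) ≤ β (canDeg D + S.card)

/-- the linear polynomial `F(a)` in the coefficients of a form `F` of degree `e` -/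
noncomputable def evPoly {k : Type} [Field k] {n e : ℕ} (q : ℕ) (a : Fin (n + 1) → k) :
    MvPolynomial (Mon (n + 1) e ⊕ Fin q) k := ∑ β, C (mv e a β) * X (Sum.inl β)

/-- Equations of the cover `X` of the affine variety `Y` (equations `Q`) of forms `F` of degree
`e` with `F(p0) = 1`: those of `Y`, `F(p0) = 1` and `x_i ^ μ_i = F(a_i)`. -/
def evalCover {k : Type} [Field k] {n e q : ℕ} (Q : Set (MvPolynomial (Mon (n + 1) e) k))
    (p0 : Fin (n + 1) → k) (a : Fin q → Fin (n + 1) → k) (μ : Fin q → ℕ) :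
    Set (MvPolynomial (Mon (n + 1) e ⊕ Fin q) k) :=
  {p | (∃ g ∈ Q, p = rename Sum.inl g) ∨ p = evPoly q p0 - 1 ∨
    ∃ i, p = X (Sum.inr i) ^ μ i - evPoly q (a i)}

/-- the exceptional set: `∏ x_i = 0` or, unless `e = 1`, `F` is reducible -/
def excCover (k : Type) [Field k] {n e q : ℕ} (K : Type) [Field K] [Algebra k K]
    (z : Mon (n + 1) e ⊕ Fin q → K) : Prop :=
  (∃ i, z (Sum.inr i) = 0) ∨ (e ≠ 1 ∧ ¬ Irreducible (frm fun β => z (Sum.inl β)))

/-- The level one inequality. -/
theorem level_one2 (hCRD : T_CRD) (hDUA : T_DUA) (hCOP : T_COP) (hIRR : T_IRR) (hSMT : T_SMT2)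
    (k : Type) [Field k] [IsAlgClosed k] [CharZero k] (n d e : ℕ) (ι : Type) [Fintype ι]
    (a : ι → Fin (n + 1) → k) (hι : Fintype.card ι = (n + d + e).choose n)
    (ha : GenPos (d + e) a) (K : Type) [Field K] [Algebra k K] [Algebra.EssFiniteType k K]
    (htr : Algebra.trdeg k K = 1) (c : Mon (n + 1) e → K)
    (hc : ∃ l : Mon (n + 1) e → k, ∑ β, algebraMap k K (l β) * c β = 1) (hadm : Adm k c)
    (hl : ∀ i, val (a i) c ≠ 0) (D : Derivation k K K) (hD : D ≠ 0) :
    {vi : DV k K × ι | 0 < vi.1.ord (val (a vi.2) c) + poleOrder vi.1 c}.Finite ∧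
    (2 * ((n + d).choose n : ℤ) - (n + d + e).choose n) * deg k c ≤
      ({vi : DV k K × ι | 0 < vi.1.ord (val (a vi.2) c) + poleOrder vi.1 c}.ncard : ℤ) +
        (((n + d + e).choose n : ℤ) - (n + d).choose n) * canDeg D := by
  classical
  obtain ⟨φ, hφ⟩ := hDUA k n (d + e) ι a (by rw [hι, hCRD n (d + e), Nat.add_assoc]) ha
  have hgood : Good D c := by
    obtain ⟨h1, h2⟩ := hadm
    rcases h2 with h2 | h2
    · obtain ⟨h3, h4⟩ := hIRR k K n e c (Or.inl h2) h1
      exact hCOP k K n e D c (ker k K htr D hD) h3 h4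
    · exact hCOP k K n e D c (ker k K htr D hD) h2.1 h2.2
  have h1 := (hSMT k K htr n d e ι a φ D c hφ hD hl hc hgood).1
  obtain ⟨h2, h3⟩ := ncard_pairs (V := DV k K) (ι := ι)
    (fun v i => 0 < v.ord (val (a i) c) + poleOrder v c)
    (finite_card_ne' htr (fun i => val (a i) c) c)
  refine ⟨h2, ?_⟩
  rw [h3]
  rw [hCRD n d, hCRD n (d + e), ← Nat.add_assoc] at h1
  exact h1

lemma aeval_evPoly {k K : Type} [Field k] [Field K] [Algebra k K] {n e q : ℕ}
    (a : Fin (n + 1) → k) (z : Mon (n + 1) e ⊕ Fin q → K) :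
    aeval z (evPoly q a) = val a (fun β => z (Sum.inl β)) := by
  simp only [evPoly, val, map_sum, map_mul, aeval_C, aeval_X]

/-- The degree bound for the covers. -/
theorem cover_bound2 (hCRD : T_CRD) (hCOP : T_COP) (hIRR : T_IRR) (hLVX : T_LVX2)
    (k : Type) [Field k] [IsAlgClosed k] [CharZero k] (n q d e m : ℕ) (p0 : Fin (n + 1) → k)
    (hp0 : p0 ≠ 0) (hm : 2 ≤ m)
    (hd : (m + 1) * (n + d + e).choose n ≤ 2 * m * (n + d).choose n)
    (a : Fin q → Fin (n + 1) → k) (ha : GenPos (d + e) (withPt p0 a)) (μ : Fin q → ℕ)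
    (hμ : ∀ i, m ≤ μ i) (Q : Set (MvPolynomial (Mon (n + 1) e) k)) :
    DegreeBoundOff k (evalCover Q p0 a μ) (excCover k)
      (fun χ => (m * ((n + d + e).choose n - (n + d).choose n) : ℕ) * χ) := by
  intro K _ _ _ htr S z hP hreg hnc hexc D hD
  obtain ⟨y, hy⟩ : ∃ y : Mon (n + 1) e → K, y = fun β => z (Sum.inl β) := ⟨_, rfl⟩
  obtain ⟨x, hx⟩ : ∃ x : Fin q → K, x = fun i => z (Sum.inr i) := ⟨_, rfl⟩
  have hz : z = Sum.elim y x := by
    funext s
    rcases s with j | i
    · rw [hy]; rfl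
    · rw [hx]; rfl
  unfold excCover at hexc
  push Not at hexc
  obtain ⟨hx0', hirr'⟩ := hexc
  have hx0 : ∀ i, x i ≠ 0 := by
    intro i
    rw [hx]
    exact hx0' i
  have hy1 : val p0 y = 1 := by
    have h1 := hP _ (Or.inr (Or.inl rfl))
    rw [map_sub, map_one, aeval_evPoly, sub_eq_zero] at h1
    rw [hy]
    exact h1
  have hxe : ∀ i, x i ^ μ i = val (a i) y := by
    intro i
    have h1 := hP _ (Or.inr (Or.inr ⟨i, rfl⟩))
    rw [map_sub, map_pow, aeval_X, aeval_evPoly, sub_eq_zero] at h1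
    rw [hx, hy]
    exact h1
  -- the form is not constant
  have hnc' : ∃ β γ, y β ≠ 0 ∧ y γ / y β ∉ Set.range (algebraMap k K) := by
    by_contra hcon
    push Not at hcon
    obtain ⟨β0, hβ0⟩ : ∃ β, y β ≠ 0 := by
      by_contra h0
      push Not at h0
      have : val p0 y = 0 := by
        unfold val
        exact Finset.sum_eq_zero fun β _ => by rw [h0 β, mul_zero]
      rw [this] at hy1
      exact zero_ne_one hy1
    have hr : ∀ γ, y γ / y β0 ∈ (algebraMap k K).range := fun γ => hcon β0 γ hβ0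
    have h1 : val p0 y / y β0 ∈ (algebraMap k K).range := by
      have h2 : val p0 y / y β0 = ∑ β, algebraMap k K (mv e p0 β) * (y β / y β0) := by
        unfold val
        rw [Finset.sum_div]
        exact Finset.sum_congr rfl fun β _ => by ring
      rw [h2]
      exact sum_mem fun β _ => mul_mem ⟨_, rfl⟩ (hr β)
    rw [hy1, one_div] at h1
    obtain ⟨t, ht⟩ := h1
    have ht0 : y β0 = algebraMap k K t⁻¹ := by
      rw [map_inv₀, ht, inv_inv]
    have hyc : ∀ γ, y γ ∈ Set.range (algebraMap k K) := by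
      intro γ
      obtain ⟨u, hu⟩ := hr γ
      refine ⟨u * t⁻¹, ?_⟩
      rw [map_mul, hu, ← ht0, div_mul_cancel₀ _ hβ0]
    obtain ⟨s, hs⟩ := hnc
    apply hs
    rcases s with j | i
    · have := hyc j
      rw [hy] at this
      exact this
    · have h3 : val (a i) y ∈ (algebraMap k K).range := by
        unfold val
        exact sum_mem fun β _ => mul_mem ⟨_, rfl⟩ (hyc β)
      obtain ⟨u, hu⟩ := h3
      have h4 : IsAlgebraic k (x i ^ μ i) := by
        rw [hxe i, ← hu]
        exact isAlgebraic_algebraMap u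
      have h5 : IsAlgebraic k (x i) := h4.of_pow (by have := hμ i; omega)
      have h6 := mem_range_of_isAlgebraic h5
      rw [hx] at h6
      exact h6
  have hirr : e = 1 ∨ Irreducible (frm y) := by
    by_cases he : e = 1
    · exact Or.inl he
    · right
      rw [hy]
      exact hirr' he
  obtain ⟨h3, h4⟩ := hIRR k K n e y hirr hnc'
  have hgood : Good D y := hCOP k K n e D y (ker k K htr D hD) h3 h4
  have h7 := hLVX k n q d e m p0 a μ hm hμ hp0 (by rw [hCRD n d, hCRD n (d + e), ← Nat.add_assoc]; exact hd) ha K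
    htr S y x (fun v hv j => by
      have := hreg v hv (Sum.inl j)
      rw [hy]
      exact this) hy1 hx0 hxe D hD hgood
  rw [hCRD n d, hCRD n (d + e), ← Nat.add_assoc] at h7
  rw [hz]
  push_cast at h7 ⊢
  exact h7

end Pool.Agent.H27.LV
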