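import Pool.Agent.H27.LV.LVX2

/-!
# MP_70ba79_ag: general families of points together with a given point are in general position
-/

set_option autoImplicit false

namespace Pool.Agent.H27.LV

open MvPolynomial

variable {k : Type} [Field k] {n : ℕ}

/-- existence of points which are in general position together with `p0` -/
lemma exists_genPos2 [Infinite k] (e q : ℕ) (p0 : Fin (n + 1) → k) (h0 : p0 ≠ 0)
    (hq : Fintype.card (Mon (n + 1) e) ≤ q + 1) :
    ∃ a : Fin q → Fin (n + 1) → k, GenPos e (withPt p0 a) := by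
  classical
  have hne : mv e p0 ≠ 0 := by
    intro h
    obtain ⟨j, hj⟩ := Function.ne_iff.1 h0
    have h1 := congrFun h ⟨Pi.single j e, by simp⟩
    simp only [mv, Pi.zero_apply] at h1
    rw [Finset.prod_eq_single j (by
      intro b _ hb
      rw [Pi.single_eq_of_ne hb, pow_zero]) (by simp)] at h1
    simp only [Pi.single_eq_same] at h1
    exact pow_ne_zero e hj h1
  have hli : LinearIndepOn k id ({mv e p0} : Set (Mon (n + 1) e → k)) :=
    LinearIndepOn.singleton hne
  obtain ⟨b, hbt, hsb, htb, hb⟩ := exists_linearIndepOn_id_extension (t := Set.range (mv e)) hli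
    (by rintro _ rfl; exact ⟨p0, rfl⟩)
  have hspan : Submodule.span k b = ⊤ := by
    rw [eq_top_iff, ← span_mv e]
    exact Submodule.span_le.2 htb
  have hfin : b.Finite := hb.setFinite
  obtain ⟨B, hB⟩ : ∃ B : Finset (Mon (n + 1) e → k), (B : Set (Mon (n + 1) e → k)) = b :=
    ⟨hfin.toFinset, by simp⟩
  have hcard : B.card ≤ Fintype.card (Mon (n + 1) e) := by
    have h1 : LinearIndependent k (fun x : B => (x : Mon (n + 1) e → k)) := by
      rw [← hB] at hb
      exact hb
    have h2 := h1.fintype_card_le_finrank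
    simpa using h2
  have hmem : mv e p0 ∈ B := by
    rw [← Finset.mem_coe, hB]
    exact hsb rfl
  obtain ⟨B', hB'⟩ : ∃ B', B' = B.erase (mv e p0) := ⟨_, rfl⟩
  have hB'c : B'.card ≤ q := by
    rw [hB', Finset.card_erase_of_mem hmem]
    omega
  have hpt : ∀ x ∈ B', ∃ p : Fin (n + 1) → k, mv e p = x := by
    intro x hx
    have h1 : x ∈ B := Finset.mem_of_mem_erase (hB' ▸ hx)
    rw [← Finset.mem_coe, hB] at h1
    exact hbt h1
  choose! pt hpt using hpt
  let en := B'.equivFin
  let a : Fin q → Fin (n + 1) → k := fun i =>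
    if h : i.1 < B'.card then pt (en.symm ⟨i.1, h⟩ : B').1 else 0
  refine ⟨a, genPos_iff.2 fun t ht => ?_⟩
  have h0 : ∑ f, t f * mv e p0 f = 0 := ht none
  have hx : ∀ x ∈ B, ∑ f, t f * x f = 0 := by
    intro x hx
    by_cases hxe : x = mv e p0
    · rw [hxe]; exact h0
    · have hx' : x ∈ B' := by
        rw [hB']
        exact Finset.mem_erase.2 ⟨hxe, hx⟩
      have h1 := ht (some ⟨(en ⟨x, hx'⟩).1, lt_of_lt_of_le (en ⟨x, hx'⟩).2 hB'c⟩)
      have h2 : withPt p0 a (some ⟨(en ⟨x, hx'⟩).1, lt_of_lt_of_le (en ⟨x, hx'⟩).2 hB'c⟩) =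
          pt x := by
        change a _ = pt x
        simp only [a]
        rw [dif_pos (en ⟨x, hx'⟩).2]
        simp
      rw [h2, hpt x hx'] at h1
      exact h1
  let F : (Mon (n + 1) e → k) →ₗ[k] k :=
    { toFun := fun x => ∑ f, t f * x f
      map_add' := fun x y => by
        simp only [Pi.add_apply, mul_add, Finset.sum_add_distrib]
      map_smul' := fun c x => by
        simp only [Pi.smul_apply, smul_eq_mul, RingHom.id_apply, Finset.mul_sum]
        exact Finset.sum_congr rfl fun f _ => by ring }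
  have hF : ∀ x, F x = 0 := by
    intro x
    have h1 : Submodule.span k b ≤ LinearMap.ker F := by
      rw [Submodule.span_le]
      intro y hy
      rw [← hB] at hy
      exact hx y (Finset.mem_coe.1 hy)
    have h2 : x ∈ Submodule.span k b := by rw [hspan]; trivial
    exact h1 h2
  funext f
  have h3 := hF (Pi.single f 1)
  change ∑ f', t f' * (Pi.single f 1 : Mon (n + 1) e → k) f' = 0 at h3
  rw [Finset.sum_eq_single f (by
    intro b _ hb
    rw [Pi.single_eq_of_ne hb, mul_zero]) (by simp)] at h3
  simpa using h3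

/-- a general family of points is in general position together with `p0` -/
theorem genPos_general2 [Infinite k] (hSEL : T_SEL) (e q : ℕ) (p0 : Fin (n + 1) → k)
    (h0 : p0 ≠ 0) (hq : Fintype.card (Mon (n + 1) e) ≤ q + 1) :
    ∃ Δ : MvPolynomial (Fin q × Fin (n + 1)) k, Δ ≠ 0 ∧ ∀ a : Fin q → Fin (n + 1) → k,
      eval (fun ij => a ij.1 ij.2) Δ ≠ 0 → GenPos e (withPt p0 a) := by
  classical
  obtain ⟨a0, ha0⟩ := exists_genPos2 (k := k) (n := n) e q p0 h0 hq
  obtain ⟨s, φ, hns, hcard, hφ⟩ := hSEL k n e (Fin q) (withPt p0 a0) h0 ha0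
  have hc : Fintype.card s = Fintype.card (Mon (n + 1) e) := by simpa using hcard
  let en : Mon (n + 1) e ≃ s := (Fintype.equivOfCardEq hc).symm
  let P : Option (Fin q) → Fin (n + 1) → MvPolynomial (Fin q × Fin (n + 1)) k := fun o j =>
    o.elim (C (p0 j)) fun i => X (i, j)
  let M : Matrix (Mon (n + 1) e) (Mon (n + 1) e) (MvPolynomial (Fin q × Fin (n + 1)) k) :=
    Matrix.of fun r f => ∏ j, P (en r).1 j ^ f.1 j
  have hev : ∀ (a : Fin q → Fin (n + 1) → k) (o : Option (Fin q)) (j : Fin (n + 1)),
      eval (fun ij : Fin q × Fin (n + 1) => a ij.1 ij.2) (P o j) = withPt p0 a o j := by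
    intro a o j
    cases o with
    | none => simp [P, withPt]
    | some i => simp [P, withPt]
  have hM : ∀ a : Fin q → Fin (n + 1) → k,
      eval (fun ij : Fin q × Fin (n + 1) => a ij.1 ij.2) M.det =
        (Matrix.of fun r f : Mon (n + 1) e => mv e (withPt p0 a (en r).1) f).det := by
    intro a
    rw [RingHom.map_det]
    congr 1
    ext r f
    simp only [RingHom.mapMatrix_apply, Matrix.map_apply, Matrix.of_apply, M, map_prod, map_pow,
      hev, mv]
  refine ⟨M.det, fun h0 => ?_, fun a ha => ?_⟩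
  · have h1 := hM a0
    rw [h0, map_zero] at h1
    have h2 : (Matrix.of fun r f : Mon (n + 1) e => mv e (withPt p0 a0 (en r).1) f) *
        (Matrix.of fun f r : Mon (n + 1) e => coeff (fs f.1) (φ (en r))) = 1 := by
      ext r r'
      rw [Matrix.mul_apply]
      simp only [Matrix.of_apply]
      have h3 : ∑ f, mv e (withPt p0 a0 (en r).1) f * coeff (fs f.1) (φ (en r')) =
          eval (withPt p0 a0 (en r).1) (φ (en r')) := by
        conv_rhs => rw [← frm_coeff (hφ.homog (en r')), eval_frm]
        exact Finset.sum_congr rfl fun f _ => mul_comm _ _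
      rw [h3, Matrix.one_apply]
      split_ifs with h4
      · rw [h4]; exact hφ.eval_same _
      · exact hφ.eval_ne (en r') (en r) fun h5 => h4 (en.injective h5.symm)
    have h3 := congrArg Matrix.det h2
    rw [Matrix.det_mul, ← h1, zero_mul, Matrix.det_one] at h3
    exact zero_ne_one h3
  · rw [hM a] at ha
    refine genPos_iff.2 fun t ht => ?_
    have h1 : (Matrix.of fun r f : Mon (n + 1) e => mv e (withPt p0 a (en r).1) f).mulVec t = 0 := by
      funext r
      simp only [Matrix.mulVec, dotProduct, Matrix.of_apply, Pi.zero_apply]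
      rw [← ht (en r).1]
      exact Finset.sum_congr rfl fun f _ => mul_comm _ _
    exact Matrix.eq_zero_of_mulVec_eq_zero ha h1

end Pool.Agent.H27.LV
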