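import Pool.Agent.H27.LV.HOM2
import Pool.Agent.H27.LV.Curve

/-!
# MP_70ba79_ag: targets LB2, LOC2, HYV2
-/

set_option autoImplicit false

namespace Pool.Agent.H27.LV

open MvPolynomial SC

theorem tLB2 (hLDT : T_LDT) : T_LB2 := by
  intro k K _ _ _ n d e ι R _ _ _ _ a φ D v δ c κ τ I hD hval hc hI
  let A : Matrix R R K := Matrix.of fun p q =>
    (mono K (τ q).1 * frm (fun β => D (c β))).coeff (fs (κ p).1)
  let B : Matrix R ι K := Matrix.of fun p i =>
    -((D (val (a i) c) / val (a i) c) *
      (frm c * MvPolynomial.map (algebraMap k K) (φ i)).coeff (fs (κ p).1))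
  let C' : Matrix ι R K := Matrix.of fun i q => eval (evk K (a i)) (mono K (τ q).1)
  have hM : (Matrix.of fun p q : R =>
      (vv D c a φ (mono K (τ q).1)).coeff (fs (κ p).1)) = A + B * C' := by
    ext p q
    rw [Matrix.add_apply, Matrix.mul_apply]
    simp only [A, B, C', Matrix.of_apply, vv]
    rw [coeff_sub, Finset.mul_sum, coeff_sum, sub_eq_add_neg, ← Finset.sum_neg_distrib]
    congr 1
    refine Finset.sum_congr rfl fun i _ => ?_
    have h1 : frm c * (C (eval (evk K (a i)) (mono K (τ q).1) *
        (D (val (a i) c) / val (a i) c)) * MvPolynomial.map (algebraMap k K) (φ i)) =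
        C (eval (evk K (a i)) (mono K (τ q).1) * (D (val (a i) c) / val (a i) c)) *
          (frm c * MvPolynomial.map (algebraMap k K) (φ i)) := by ring
    rw [h1, coeff_C_mul]
    ring
  unfold minr
  rw [hM]
  have hfrm : ∀ (c' : Mon (n + 1) e → K) (t : ℤ) (g : MvPolynomial (Fin (n + 1)) k) (s),
      (∀ β, ge v t (c' β)) →
      ge v t ((frm c' * MvPolynomial.map (algebraMap k K) g).coeff s) := by
    intro c' t g s hc'
    have h2 : frm c' * MvPolynomial.map (algebraMap k K) g =
        ∑ β, C (c' β) * MvPolynomial.map (algebraMap k K) (mono k β.1 * g) := by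
      unfold frm
      rw [Finset.sum_mul]
      refine Finset.sum_congr rfl fun β _ => ?_
      rw [map_mul, mul_assoc]
      congr 2
      simp [mono, map_monomial]
    rw [h2, coeff_sum]
    refine ge_sum v _ _ _ fun β _ => ?_
    rw [coeff_C_mul, coeff_map]
    have := (hc' β).mul (ge_const v (coeff s (mono k β.1 * g)))
    rwa [add_zero] at this
  refine hLDT k K v _ _ A B C' δ I ?_ ?_ ?_
  · intro p q
    simp only [A, Matrix.of_apply]
    have h1 : mono K (τ q).1 = MvPolynomial.map (algebraMap k K) (mono k (τ q).1) := by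
      simp [mono, map_monomial]
    rw [mul_comm, h1]
    exact hfrm _ δ _ _ fun β => hD.1 _ (hc β)
  · intro p i
    simp only [B, Matrix.of_apply]
    have h1 : ge v 0 ((frm c * MvPolynomial.map (algebraMap k K) (φ i)).coeff (fs (κ p).1)) :=
      hfrm c 0 _ _ fun β => Or.inr (hc β)
    have hl0 : ge v 0 (val (a i) c) := by
      unfold val
      refine ge_sum v _ _ _ fun β _ => ?_
      have := (ge_const v (mv e (a i) β)).mul (Or.inr (hc β) : ge v 0 (c β))
      rwa [add_zero] at this
    have hl : 0 ≤ v.ord (val (a i) c) := hl0.resolve_left (hval i)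
    have h3 : ge v (if i ∈ I then δ - 1 else δ) (D (val (a i) c) / val (a i) c) := by
      by_cases h0 : D (val (a i) c) = 0
      · rw [h0, zero_div]; exact ge_zero v _
      refine Or.inr ?_
      rw [v.ord_div h0 (hval i)]
      split_ifs with hi
      · have := (hD.2 _ (hval i)).resolve_left h0
        omega
      · rw [hI] at hi
        have := (hD.1 _ hl).resolve_left h0
        omega
    have := (h3.mul h1).neg
    rwa [add_zero] at this
  · intro i q
    simp only [C', Matrix.of_apply]
    rw [eval_evk_mono]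
    exact ge_const v _

/-- the coefficient with the largest pole -/
lemma exists_pole2 {k K : Type} [Field k] [Field K] [Algebra k K] {J : Type} [Fintype J]
    (v : DV k K) (c : J → K) (hnorm : ∃ l : J → k, ∑ β, algebraMap k K (l β) * c β = 1) :
    ∃ b, c b ≠ 0 ∧ v.ord (c b) = -(poleOrder v c : ℤ) := by
  by_cases hP : poleOrder v c = 0
  · obtain ⟨l, hl⟩ := hnorm
    by_contra hcon
    push Not at hcon
    have h1 : ge v 1 (∑ β, algebraMap k K (l β) * c β) := by
      refine ge_sum v _ _ _ fun β _ => ?_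
      by_cases h0 : c β = 0
      · left; rw [h0, mul_zero]
      · have h2 := hcon β h0
        have h3 : (-(v.ord (c β))).toNat ≤ poleOrder v c :=
          Finset.le_sup (f := fun β => (-(v.ord (c β))).toNat) (Finset.mem_univ β)
        have h4 : ge v 1 (c β) := Or.inr (by rw [hP] at h2 h3; simp at h2; omega)
        have := (ge_const v (l β)).mul h4
        rwa [zero_add] at this
    rw [hl] at h1
    rcases h1 with h1 | h1
    · exact one_ne_zero h1
    · rw [v.ord_one] at h1
      omega
  · have hne : (Finset.univ : Finset J).Nonempty := by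
      by_contra h
      rw [Finset.not_nonempty_iff_eq_empty] at h
      apply hP
      unfold poleOrder
      rw [h]; rfl
    obtain ⟨b, -, hb⟩ := Finset.exists_mem_eq_sup Finset.univ hne
      (fun i => (-(v.ord (c i))).toNat)
    have hb' : poleOrder v c = (-(v.ord (c b))).toNat := hb
    refine ⟨b, ?_, ?_⟩
    · intro h0
      rw [h0, v.ord_zero] at hb'
      exact hP (by simpa using hb')
    · omega

/-- normalised coefficients are integral -/
lemma ord_normalised {k K : Type} [Field k] [Field K] [Algebra k K] {J : Type} [Fintype J]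
    (v : DV k K) (c : J → K) {b : J} (hb0 : c b ≠ 0) (hb : v.ord (c b) = -(poleOrder v c : ℤ))
    (β : J) : 0 ≤ v.ord ((c b)⁻¹ * c β) := by
  by_cases h : c β = 0
  · rw [h, mul_zero, v.ord_zero]
  · rw [v.ord_mul _ _ (inv_ne_zero hb0) h, v.ord_inv, hb]
    have h3 : (-(v.ord (c β))).toNat ≤ poleOrder v c :=
      Finset.le_sup (f := fun β => (-(v.ord (c β))).toNat) (Finset.mem_univ β)
    omega

theorem tLOC2 (hCHB : T_CHB2) (hLB : T_LB2) (hUSC : T_USC2) (hUNI : T_UNI) : T_LOC2 := by
  intro k K _ _ _ n d e ι R _ _ _ _ a φ D v δ c e0 κ τ I hφ hD hres hval hnorm hI hA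
  obtain ⟨b, hb0, hb⟩ := exists_pole2 v c hnorm
  obtain ⟨s, hs⟩ : ∃ s, s = c b := ⟨_, rfl⟩
  have hs0 : s ≠ 0 := by rw [hs]; exact hb0
  have hso : v.ord s = -(poleOrder v c : ℤ) := by rw [hs]; exact hb
  obtain ⟨c', hc'⟩ : ∃ c' : Mon (n + 1) e → K, c' = fun β => s⁻¹ * c β := ⟨_, rfl⟩
  have hcc' : c = fun β => s * c' β := by
    funext β
    rw [hc']
    simp only
    rw [mul_inv_cancel_left₀ hs0]
  have hc'ord : ∀ β, 0 ≤ v.ord (c' β) := by
    intro β
    rw [hc', hs]
    exact ord_normalised v c hb0 hb β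
  have hc'b : c' b = 1 := by rw [hc', hs]; exact inv_mul_cancel₀ hb0
  have hval' : ∀ i, val (a i) c' = s⁻¹ * val (a i) c := by
    intro i
    rw [hc', val_smul]
  have hvalne : ∀ i, val (a i) c' ≠ 0 := fun i => by
    rw [hval']; exact mul_ne_zero (inv_ne_zero hs0) (hval i)
  have hI' : ∀ i, i ∈ I ↔ 0 < v.ord (val (a i) c') := by
    intro i
    rw [hI i, hval', v.ord_mul _ _ (inv_ne_zero hs0) (hval i), v.ord_inv, hso]
    constructor <;> intro h <;> omega
  obtain ⟨τ', hA', hA'o⟩ := hUNI k K n d e R v c' e0 hres hc'ord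
    ⟨b, by rw [hc'b]; exact one_ne_zero, by rw [hc'b, v.ord_one]⟩
  have hLB' := hLB k K n d e ι R a φ D v δ c' κ τ' I hD hvalne hc'ord hI'
  have hch := hCHB k K n d e ι R a φ D c e0 κ τ τ' hφ hval hA
  have hdet : minr D c a φ κ τ' = s ^ Fintype.card R * minr D c' a φ κ τ' := by
    unfold minr
    rw [← Matrix.det_smul]
    congr 1
    ext p q
    simp only [Matrix.of_apply, Matrix.smul_apply, smul_eq_mul]
    conv_lhs => rw [hcc']
    rw [hUSC k K n d e ι a φ D c' s hφ hvalne hs0 _ (isHomogeneous_mono (τ' q)), coeff_C_mul]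
  have haug : ((aug d c τ').submatrix e0 id).det =
      s ^ Fintype.card (Mon (n + 1) d) * ((aug d c' τ').submatrix e0 id).det := by
    have h1 : (aug d c τ').submatrix e0 id = ((aug d c' τ').submatrix e0 id) *
        Matrix.diagonal (Sum.elim (fun _ : Mon (n + 1) d => s) (fun _ : R => (1 : K))) := by
      ext x y
      rw [Matrix.mul_diagonal]
      rcases y with y | y
      · simp only [Matrix.submatrix_apply, id, aug, Matrix.of_apply, Sum.elim_inl]
        conv_lhs => rw [hcc']
        rw [frm_smul, mul_assoc, coeff_C_mul, mul_comm]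
      · simp only [Matrix.submatrix_apply, id, aug, Matrix.of_apply, Sum.elim_inr, mul_one]
    rw [h1, Matrix.det_mul, Matrix.det_diagonal, Fintype.prod_sum_type]
    simp only [Sum.elim_inl, Sum.elim_inr, Finset.prod_const, one_pow, mul_one, Finset.card_univ]
    ring
  by_cases h0 : minr D c a φ κ τ = 0
  · left
    rw [h0, zero_div]
  have hAc : ((aug d c τ').submatrix e0 id).det ≠ 0 := by
    rw [haug]
    exact mul_ne_zero (pow_ne_zero _ hs0) hA'
  have h1 : minr D c' a φ κ τ' ≠ 0 := by
    intro h
    rw [hdet, h, mul_zero, zero_mul] at hch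
    exact mul_ne_zero h0 hAc hch
  right
  have h2 := hLB'.resolve_left h1
  have hord := congrArg v.ord hch
  rw [v.ord_mul _ _ h0 hAc, hdet, v.ord_mul _ _ (mul_ne_zero (pow_ne_zero _ hs0) h1) hA,
    v.ord_mul _ _ (pow_ne_zero _ hs0) h1, haug, v.ord_mul _ _ (pow_ne_zero _ hs0) hA',
    v.ord_pow, v.ord_pow, hA'o, hso] at hord
  rw [v.ord_div h0 hA]
  have h3 : ((Fintype.card (Mon (n + 1) d) : ℤ) - Fintype.card R) * poleOrder v c =
      (Fintype.card (Mon (n + 1) d) : ℤ) * poleOrder v c - Fintype.card R * poleOrder v c := by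
    ring
  rw [h3]
  simp only [mul_neg] at hord
  linarith

theorem tHYV2 (h : T_HYC2) : T_HYV2 := by
  intro k K _ _ _ n d e ι _ a φ v c I hφ hres hnorm hI
  obtain ⟨b, hb0, hb⟩ := exists_pole2 v c hnorm
  have hc' := ord_normalised v c hb0 hb
  choose c0 hc0 using fun β => hres _ (hc' β)
  refine h k n d e ι a φ c0 I hφ ?_ ?_
  · intro h0
    have h1 := hc0 b
    rw [inv_mul_cancel₀ hb0, h0, Pi.zero_apply, map_zero, sub_zero] at h1
    rcases h1 with h1 | h1
    · exact one_ne_zero h1
    · rw [v.ord_one] at h1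
      omega
  · intro i hi
    have h1 : ge v 1 ((c b)⁻¹ * val (a i) c) := by
      rcases hI i hi with h2 | h2
      · left; rw [h2, mul_zero]
      · by_cases h3 : val (a i) c = 0
        · left; rw [h3, mul_zero]
        right
        rw [v.ord_mul' (inv_ne_zero hb0) h3, v.ord_inv, hb]
        omega
    have h2 : ge v 1 (∑ β, algebraMap k K (mv e (a i) β) *
        ((c b)⁻¹ * c β - algebraMap k K (c0 β))) := by
      refine ge_sum v _ _ _ fun β _ => ?_
      have := (ge_const v (mv e (a i) β)).mul (hc0 β)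
      rwa [zero_add] at this
    have h3 : algebraMap k K (val (a i) c0) = (c b)⁻¹ * val (a i) c -
        ∑ β, algebraMap k K (mv e (a i) β) * ((c b)⁻¹ * c β - algebraMap k K (c0 β)) := by
      simp only [val, map_sum, map_mul, Finset.mul_sum, Algebra.algebraMap_self, RingHom.id_apply]
      rw [← Finset.sum_sub_distrib]
      refine Finset.sum_congr rfl fun β _ => ?_
      ring
    have h4 : ge v 1 (algebraMap k K (val (a i) c0)) := by
      rw [h3]
      exact h1.sub h2
    exact const_eq_zero v (by norm_num) h4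

end Pool.Agent.H27.LV
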