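import Pool.Agent.H27.LV.All
import Pool.Agent.H27.LV.Final2
import Pool.Agent.H27.LV.Gen2
import Pool.Agent.H27.LV.LOC2
import Pool.Agent.H4.LW.CHB2
import Pool.Agent.H70.LW.COP
import Pool.Agent.H70.LW.CPL
import Pool.Agent.H88.LW.HYC2
import Pool.Agent.H88.LW.INJ2
import Pool.Agent.H62.LW.IRR
import Pool.Agent.H85.LW.MIN2
import Pool.Agent.H85.LW.UNI

/-!
# MP_70ba79_ag: assembly of the modules of the second board
-/

set_option autoImplicit false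

namespace Pool.Agent.H27.LV

theorem tCPF : T_CPF := Pool.Agent.H70.LW.cpf
theorem tCOP : T_COP := Pool.Agent.H70.LW.cop
theorem tIRR : T_IRR := Pool.Agent.H62.LW.irr
theorem tINJ2 : T_INJ2 := Pool.Agent.H88.LW.tINJ2
theorem tHYC2 : T_HYC2 := Pool.Agent.H88.LW.tHYC2
theorem tUNI : T_UNI := Pool.Agent.H85.LW.uni tCPF
theorem tMIN2 : T_MIN2 := Pool.Agent.H85.LW.min2 tHOM2 tINJ2 tCPF mrk
theorem tCHB2 : T_CHB2 := Pool.Agent.H4.LW.tCHB2 (tUL2 tDK) tHOM2 tLAL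
theorem tLOC2' : T_LOC2 := tLOC2 tCHB2 (tLB2 tLDT) (tUSC2 tDK) tUNI
theorem tHYV2' : T_HYV2 := tHYV2 tHYC2
theorem tSMT2 : T_SMT2 := smt2 tMIN2 tLOC2' tHYV2' tDFI
theorem tLVX2 : T_LVX2 := lvx2 tSEL tSMT2

end Pool.Agent.H27.LV
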