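import Pool.Agent.H93.SC.Defs

/-!
# MP_70ba79_ag: Lang-Vojta over function fields, level one truncated inequality

Common definitions of the modules of the board `lv_modules`. Places are the discrete valuations
`SC.DV k K` of `Pool/Agent/H93/SC/Stmt.lean` (API in `Pool/Agent/H64/SC/Api.lean`).
-/

set_option autoImplicit false

namespace Pool.Agent.H27.LV

open MvPolynomial SC

section Curve

variable {k K : Type} [Field k] [Field K] [Algebra k K]

/-- `x` vanishes to order at least `t` (in particular if `x = 0`) -/
def ge (v : DV k K) (t : ℤ) (x : K) : Prop := x = 0 ∨ t ≤ v.ord x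

/-- order at `v` of the derivation (rational vector field) `D` -/
noncomputable def ordD (v : DV k K) (D : Derivation k K K) : ℤ := v.ord (D v.unif)

/-- degree of the canonical divisor, computed with the rational vector field `D`: it is
`2 g - 2` for every nonzero `D` -/
noncomputable def canDeg (D : Derivation k K K) : ℤ := - ∑ᶠ v : DV k K, ordD v D

/-- largest order of a pole at `v` among the functions `z i` (`0` if there is none) -/
noncomputable def poleOrder {ι : Type} [Fintype ι] (v : DV k K) (z : ι → K) : ℕ :=
  Finset.univ.sup fun i => (-(v.ord (z i))).toNat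

/-- degree of the pull back of the hyperplane bundle under the map `(1 : z)` from the smooth
projective model of `K` to projective space -/
noncomputable def deg (k : Type) {K : Type} [Field k] [Field K] [Algebra k K] {ι : Type}
    [Fintype ι] (z : ι → K) : ℕ := ∑ᶠ v : DV k K, poleOrder v z

end Curve

/-- exponents of monomials of degree `d` in `n` variables -/
abbrev Mon (n d : ℕ) : Type := {f : Fin n → ℕ // ∑ i, f i = d}

instance (n d : ℕ) : Finite (Mon n d) := by
  have h : ∀ f : Mon n d, ∀ i, f.1 i < d + 1 := fun f i => by
    have := Finset.single_le_sum (f := f.1) (fun _ _ => Nat.zero_le _) (Finset.mem_univ i)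
    have := f.2
    omega
  refine Finite.of_injective (β := Fin n → Fin (d + 1)) (fun f i => ⟨f.1 i, h f i⟩) ?_
  intro f g hfg
  apply Subtype.ext
  funext i
  have := congrFun hfg i
  simpa using this

noncomputable instance (n d : ℕ) : Fintype (Mon n d) := Fintype.ofFinite _

section Forms

variable {k K : Type} [Field k] [Field K] [Algebra k K] {n : ℕ} {ι : Type}

/-- homogeneous coordinates `(1, y)` -/
def xx (y : Fin n → K) : Fin (n + 1) → K := Fin.cons 1 y

/-- constant point, considered over `K` -/
def evk (K : Type) [Field K] [Algebra k K] (a : Fin (n + 1) → k) : Fin (n + 1) → K :=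
  fun j => algebraMap k K (a j)

/-- value at `x` of the linear form with constant coefficients `a` -/
def ell (a : Fin (n + 1) → k) (x : Fin (n + 1) → K) : K := ∑ j, algebraMap k K (a j) * x j

/-- the linear form with coefficients `x` in the dual variables -/
noncomputable def lin (x : Fin (n + 1) → K) : MvPolynomial (Fin (n + 1)) K := ∑ j, C (x j) * X j

/-- exponents of a monomial as a finitely supported function -/
noncomputable def fs (f : Fin (n + 1) → ℕ) : Fin (n + 1) →₀ ℕ := Finsupp.equivFunOnFinite.symm f

/-- monomial with exponents `f` -/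
noncomputable def mono (K : Type) [Field K] (f : Fin (n + 1) → ℕ) : MvPolynomial (Fin (n + 1)) K :=
  monomial (fs f) 1

/-- exponents `p` in the variables other than the variable `b` -/
def insm {d : ℕ} (b : Fin (n + 1)) (p : Mon n d) : Fin (n + 1) → ℕ := b.insertNth 0 p.1

/-- `φ` is the basis of the forms of degree `d` dual to the evaluations at the points `a i` -/
structure DualBasis [Fintype ι] (d : ℕ) (a : ι → Fin (n + 1) → k)
    (φ : ι → MvPolynomial (Fin (n + 1)) k) : Prop where
  homog : ∀ i, (φ i).IsHomogeneous d
  eval_same : ∀ i, eval (a i) (φ i) = 1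
  eval_ne : ∀ i j, i ≠ j → eval (a j) (φ i) = 0
  repr : ∀ g : MvPolynomial (Fin (n + 1)) k, g.IsHomogeneous d → g = ∑ i, C (eval (a i) g) * φ i

/-- the operator `u(g) = g Ξ - L ∑ g(a_i) (D ℓ_i / ℓ_i) φ_i`, `L = ∑ x_j T_j`, `Ξ = ∑ D x_j T_j`,
`ℓ_i = L(a_i)` -/
noncomputable def uu [Fintype ι] (D : Derivation k K K) (x : Fin (n + 1) → K)
    (a : ι → Fin (n + 1) → k) (φ : ι → MvPolynomial (Fin (n + 1)) k)
    (g : MvPolynomial (Fin (n + 1)) K) : MvPolynomial (Fin (n + 1)) K :=
  g * lin (fun j => D (x j)) -
    lin x * ∑ i, C (eval (evk K (a i)) g * (D (ell (a i) x) / ell (a i) x)) *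
      MvPolynomial.map (algebraMap k K) (φ i)

end Forms

end Pool.Agent.H27.LV
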