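import Pool.Agent.H27.LV.Basic

/-!
# MP_70ba79_ag: targets HOM and USC
-/

set_option autoImplicit false

namespace Pool.Agent.H27.LV

open MvPolynomial SC

theorem tHOM : T_HOM := by
  intro k K _ _ _ n d ι _ a φ D x hφ
  refine ⟨fun g h => ?_, fun c g => ?_, fun g hg => ?_⟩
  · unfold uu
    have h1 : ∀ i, C (eval (evk K (a i)) (g + h) * (D (ell (a i) x) / ell (a i) x)) *
        MvPolynomial.map (algebraMap k K) (φ i) =
        C (eval (evk K (a i)) g * (D (ell (a i) x) / ell (a i) x)) *
          MvPolynomial.map (algebraMap k K) (φ i) +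
        C (eval (evk K (a i)) h * (D (ell (a i) x) / ell (a i) x)) *
          MvPolynomial.map (algebraMap k K) (φ i) := by
      intro i
      rw [map_add, add_mul, C_add, add_mul]
    simp only [h1, Finset.sum_add_distrib]
    ring
  · unfold uu
    have h1 : ∀ i, C (eval (evk K (a i)) (C c * g) * (D (ell (a i) x) / ell (a i) x)) *
        MvPolynomial.map (algebraMap k K) (φ i) =
        C c * (C (eval (evk K (a i)) g * (D (ell (a i) x) / ell (a i) x)) *
          MvPolynomial.map (algebraMap k K) (φ i)) := by
      intro i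
      have h0 : eval (evk K (a i)) (C c * g) = c * eval (evk K (a i)) g := by
        rw [map_mul, eval_C]
      rw [h0, mul_assoc, C_mul, mul_assoc]
    simp only [h1, ← Finset.mul_sum]
    ring
  · unfold uu
    have h1 : (g * lin fun j => D (x j)).IsHomogeneous (d + 1 + 1) :=
      hg.mul (isHomogeneous_lin _)
    have h2 : (lin x * ∑ i, C (eval (evk K (a i)) g * (D (ell (a i) x) / ell (a i) x)) *
        MvPolynomial.map (algebraMap k K) (φ i)).IsHomogeneous (1 + (d + 1)) := by
      refine (isHomogeneous_lin _).mul (IsHomogeneous.sum _ _ _ fun i _ => ?_)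
      have := (isHomogeneous_C (Fin (n + 1)) (eval (evk K (a i)) g *
        (D (ell (a i) x) / ell (a i) x))).mul ((hφ.homog i).map (algebraMap k K))
      simpa using this
    rw [show 1 + (d + 1) = d + 1 + 1 by ring] at h2
    exact h1.sub h2

theorem tUSC (hDK : T_DK) : T_USC := by
  intro k K _ _ _ n d ι _ a φ D x c hφ hl hc g hg
  have h1 := hDK k K n (d + 1) ι a φ hφ g hg
  unfold uu
  have h2 : lin (fun j => D (c * x j)) = C (D c) * lin x + C c * lin (fun j => D (x j)) := by
    rw [← lin_smul, ← lin_smul, ← lin_add]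
    congr 1
    funext j
    rw [D.leibniz, smul_eq_mul, smul_eq_mul]
    ring
  have h3 : ∀ i, D (ell (a i) fun j => c * x j) / (ell (a i) fun j => c * x j) =
      D c / c + D (ell (a i) x) / ell (a i) x := by
    intro i
    have := hl i
    rw [ell_smul, D.leibniz, smul_eq_mul, smul_eq_mul]
    field_simp
    ring
  have h4 : ∑ i, C (eval (evk K (a i)) g * (D (ell (a i) fun j => c * x j) /
      (ell (a i) fun j => c * x j))) * MvPolynomial.map (algebraMap k K) (φ i) =
      C (D c / c) * g + ∑ i, C (eval (evk K (a i)) g * (D (ell (a i) x) / ell (a i) x)) *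
        MvPolynomial.map (algebraMap k K) (φ i) := by
    conv_rhs => rw [h1]
    rw [Finset.mul_sum]
    simp only [← h1]
    rw [← Finset.sum_add_distrib]
    refine Finset.sum_congr rfl fun i _ => ?_
    rw [h3, mul_add, C_add, add_mul]
    simp only [C_mul]
    ring
  rw [h2, h4, lin_smul]
  have h5 : C c * C (D c / c) = (C (D c) : MvPolynomial (Fin (n + 1)) K) := by
    rw [← C_mul, mul_div_cancel₀ _ hc]
  linear_combination (-(lin x) * g) * h5

end Pool.Agent.H27.LV
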