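import Pool.Agent.H27.LV.SMT2

/-!
# MP_70ba79_ag: covers branched along evaluation hyperplanes of forms of degree `e`
-/

set_option autoImplicit false

namespace Pool.Agent.H27.LV

open SC MvPolynomial

/-- the points `a i` and the point `p0` -/
def withPt {k : Type} {n q : ℕ} (p0 : Fin (n + 1) → k) (a : Fin q → Fin (n + 1) → k) :
    Option (Fin q) → Fin (n + 1) → k := fun o => o.elim p0 a

/-- LVX2: the degree bound for the covers `x_i ^ μ_i = F(a_i)`, `F(p0) = 1` -/
def T_LVX2 : Prop := ∀ (k : Type) [Field k] [IsAlgClosed k] [CharZero k] (n q d e m : ℕ)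
  (p0 : Fin (n + 1) → k) (a : Fin q → Fin (n + 1) → k) (μ : Fin q → ℕ), 2 ≤ m →
  (∀ i, m ≤ μ i) → p0 ≠ 0 →
  (m + 1) * Fintype.card (Mon (n + 1) (d + e)) ≤ 2 * m * Fintype.card (Mon (n + 1) d) →
  GenPos (d + e) (withPt p0 a) →
  ∀ (K : Type) [Field K] [Algebra k K] [Algebra.EssFiniteType k K], Algebra.trdeg k K = 1 →
  ∀ (S : Finset (DV k K)) (y : Mon (n + 1) e → K) (x : Fin q → K),
  (∀ v, v ∉ S → ∀ β, 0 ≤ v.ord (y β)) → val p0 y = 1 →
  (∀ i, x i ≠ 0) → (∀ i, x i ^ μ i = val (a i) y) →
  ∀ D : Derivation k K K, D ≠ 0 → Good D y →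
  (deg k (Sum.elim y x) : ℤ) ≤ m * (Fintype.card (Mon (n + 1) (d + e)) -
    Fintype.card (Mon (n + 1) d) : ℕ) * (canDeg D + S.card)

section

variable {k K : Type} [Field k] [Field K] [Algebra k K] (v : DV k K)

lemma ge_val {n e : ℕ} (a : Fin (n + 1) → k) (y : Mon (n + 1) e → K) :
    ge v (-(poleOrder v y : ℤ)) (val a y) := by
  unfold val
  refine ge_sum v _ _ _ fun β _ => ?_
  have h1 : ge v (-(poleOrder v y : ℤ)) (y β) := Or.inr (npole_le v y β)
  have h2 := (ge_const v (mv e a β)).mul h1
  rwa [zero_add] at h2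

end

theorem lvx2 (hSEL : T_SEL) (hSMT : T_SMT2) : T_LVX2 := by
  classical
  intro k _ _ _ n q d e m p0 a μ hm hμ hp0 hcoef hgen K _ _ _ htr S y x hreg hy1 hx0 hx D hD hgood
  obtain ⟨E, hE⟩ : ∃ E, E = Fintype.card (Mon (n + 1) d) := ⟨_, rfl⟩
  obtain ⟨T, hT⟩ : ∃ T, T = Fintype.card (Mon (n + 1) (d + e)) := ⟨_, rfl⟩
  rw [← hE, ← hT] at hcoef
  -- the points
  obtain ⟨a', ha'⟩ : ∃ a' : Option (Fin q) → Fin (n + 1) → k, a' = withPt p0 a := ⟨_, rfl⟩
  have hn0 : a' none ≠ 0 := by rw [ha']; exact hp0
  obtain ⟨s, φ, hns, hcard, hφ⟩ := hSEL k n (d + e) (Fin q) a' hn0 (by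
    intro g hg hev
    exact hgen g hg (fun o => by rw [← ha']; exact hev o))
  have hl0 : val (a' none) y = 1 := by rw [ha']; exact hy1
  have hli : ∀ i, val (a' (some i)) y = x i ^ μ i := by
    intro i
    rw [hx i, ha']
    rfl
  have hlne : ∀ o : Option (Fin q), val (a' o) y ≠ 0 := by
    intro o
    cases o with
    | none => rw [hl0]; exact one_ne_zero
    | some i => rw [hli]; exact pow_ne_zero _ (hx0 i)
  have hordx : ∀ (v : DV k K) i, v.ord (val (a' (some i)) y) = μ i * v.ord (x i) := by
    intro v i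
    rw [hli, v.ord_pow]
  obtain ⟨h1, h2⟩ := hSMT k K htr n d e s (fun i : s => a' i.1) φ D y hφ hD (fun i => hlne i.1)
    ⟨mv e p0, hy1⟩ hgood
  obtain ⟨N, hN⟩ : ∃ N : DV k K → ℤ, N = fun v => ((Finset.univ.filter fun i : s =>
      0 < v.ord (val (a' i.1) y) + poleOrder v y).card : ℤ) := ⟨_, rfl⟩
  have hNf : (Function.support N).Finite := by
    rw [hN]
    exact finite_card_ne' htr (fun i : s => val (a' i.1) y) y
  have hPf : (Function.support fun v : DV k K => (poleOrder v y : ℤ)).Finite := by
    refine (pfi k K htr _ y).subset fun v hv => ?_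
    simpa using hv
  have e2 : ∑ᶠ v : DV k K, ((Finset.univ.filter fun i : s => 0 < v.ord (val (a' i.1) y) +
      poleOrder v y).card : ℤ) = ∑ᶠ v, N v := by rw [hN]
  rw [e2, ← hE, ← hT] at h1
  obtain ⟨ρ, hρ⟩ : ∃ ρ : ℕ, ρ = T - E := ⟨_, rfl⟩
  have hNT : ∀ v, N v + E ≤ T := by
    intro v
    rw [hN, hE, hT]
    simp only
    exact_mod_cast h2 v
  -- the finite set of the points different from infinity
  obtain ⟨s', hs'⟩ : ∃ s' : Finset (Option (Fin q)), s' = s.erase none := ⟨_, rfl⟩
  have hs'c : s'.card + 1 = T := by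
    rw [hs', Finset.card_erase_add_one hns, hcard, hT]
  have hge : ∀ (v : DV k K) (o : Option (Fin q)),
      0 ≤ v.ord (val (a' o) y) + poleOrder v y := by
    intro v o
    rcases ge_val v (a' o) y with h | h
    · exact absurd h (hlne o)
    · omega
  by_cases hne : Nonempty (DV k K)
  swap
  · have h0 : ∀ f : DV k K → ℤ, ∑ᶠ v, f v = 0 := by
      intro f
      have : IsEmpty (DV k K) := not_nonempty_iff.1 hne
      exact finsum_of_isEmpty f
    have h3 : (deg k (Sum.elim y x) : ℤ) = 0 := by rw [cast_deg htr]; exact h0 _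
    have h4 : canDeg D = 0 := by unfold canDeg; rw [h0]; simp
    have h5 : S.card = 0 := by
      rw [Finset.card_eq_zero]
      by_contra hS
      obtain ⟨v, -⟩ := Finset.nonempty_iff_ne_empty.2 hS
      exact hne ⟨v⟩
    rw [h3, h4, h5]
    simp
  obtain ⟨v0⟩ := hne
  have hN0 : ∀ v, 0 ≤ N v := by
    intro v
    rw [hN]
    simp only
    positivity
  have hET : E ≤ T := by
    have h3 := hNT v0
    have h4 := hN0 v0
    omega
  have hρ' : (ρ : ℤ) = T - E := by rw [hρ, Nat.cast_sub hET]
  have hNρ : ∀ v, N v ≤ ρ := by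
    intro v
    have := hNT v
    omega
  have hNle : ∀ v : DV k K, v ∉ S → N v ≤ ∑ o ∈ s', if 0 < v.ord (val (a' o) y) +
      poleOrder v y then (1 : ℤ) else 0 := by
    intro v hv
    have hp : poleOrder v y = 0 := by
      rw [← Nat.le_zero]
      refine poleOrder_le v y 0 fun j => ?_
      have := hreg v hv j
      simpa using this
    rw [hN]
    simp only
    rw [Finset.card_filter]
    push_cast
    rw [Finset.sum_coe_sort s (fun o => if 0 < v.ord (val (a' o) y) + (poleOrder v y : ℤ)
      then (1 : ℤ) else 0), hs', ← Finset.add_sum_erase s _ hns]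
    rw [hl0, v.ord_one, hp]
    simp
  have hpt : ∀ v : DV k K, 0 ≤ (∑ o ∈ s', (v.ord (val (a' o) y) + (poleOrder v y : ℤ))) +
      (if v ∈ S then (m : ℤ) * ρ else 0) - m * N v := by
    intro v
    by_cases hv : v ∈ S
    · rw [if_pos hv]
      have h5 : 0 ≤ ∑ o ∈ s', (v.ord (val (a' o) y) + (poleOrder v y : ℤ)) :=
        Finset.sum_nonneg fun o _ => hge v o
      have h6 : (m : ℤ) * N v ≤ m * ρ := mul_le_mul_of_nonneg_left (hNρ v) (by positivity)
      omega
    · rw [if_neg hv]
      have h := hNle v hv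
      have hp : poleOrder v y = 0 := by
        rw [← Nat.le_zero]
        refine poleOrder_le v y 0 fun j => ?_
        have := hreg v hv j
        simpa using this
      have h3 : (m : ℤ) * N v ≤ ∑ o ∈ s', (v.ord (val (a' o) y) + (poleOrder v y : ℤ)) := by
        calc (m : ℤ) * N v ≤ m * ∑ o ∈ s', (if 0 < v.ord (val (a' o) y) + poleOrder v y
              then (1 : ℤ) else 0) := mul_le_mul_of_nonneg_left h (by positivity)
          _ = ∑ o ∈ s', (m : ℤ) * (if 0 < v.ord (val (a' o) y) + poleOrder v y
              then (1 : ℤ) else 0) := Finset.mul_sum _ _ _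
          _ ≤ _ := by
            refine Finset.sum_le_sum fun o ho => ?_
            rw [hs', Finset.mem_erase] at ho
            obtain ⟨i, rfl⟩ := Option.ne_none_iff_exists'.1 ho.1
            have h4 := hge v (some i)
            rw [hp] at h4 ⊢
            rw [hordx] at h4 ⊢
            split_ifs with h5
            · simp only [Nat.cast_zero, add_zero, mul_one] at h5 h4 ⊢
              have h6 : (0 : ℤ) < v.ord (x i) := by
                by_contra hcon
                push Not at hcon
                have : (μ i : ℤ) * v.ord (x i) ≤ 0 :=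
                  mul_nonpos_of_nonneg_of_nonpos (by positivity) hcon
                omega
              have h7 : (m : ℤ) ≤ μ i := by exact_mod_cast hμ i
              nlinarith
            · simpa using h4
      omega
  have hof : ∀ o : Option (Fin q),
      (Function.support fun v : DV k K => v.ord (val (a' o) y) + (poleOrder v y : ℤ)).Finite :=
    fun o => ((pfm k K htr (val (a' o) y)).1.union hPf).subset (Function.support_add _ _)
  have hsf : (Function.support fun v : DV k K =>
      ∑ o ∈ s', (v.ord (val (a' o) y) + (poleOrder v y : ℤ))).Finite := by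
    refine (Set.Finite.biUnion s'.finite_toSet fun o _ => hof o).subset fun v hv => ?_
    simp only [Function.mem_support] at hv
    obtain ⟨o, ho, hne⟩ := Finset.exists_ne_zero_of_sum_ne_zero hv
    exact Set.mem_biUnion (Finset.mem_coe.2 ho) hne
  have hSf : (Function.support fun v : DV k K => if v ∈ S then (m : ℤ) * ρ else 0).Finite := by
    refine S.finite_toSet.subset fun v hv => ?_
    by_contra hcon
    apply hv
    exact if_neg hcon
  have hmf : (Function.support fun v : DV k K => (m : ℤ) * N v).Finite :=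
    hNf.subset fun v hv => by
      simp only [Function.mem_support] at hv ⊢
      exact right_ne_zero_of_mul hv
  have hsum := finsum_nonneg hpt
  rw [finsum_sub_distrib ((hsf.union hSf).subset (Function.support_add _ _)) hmf,
    finsum_add_distrib hsf hSf, ← mul_finsum, finsum_sum_comm s' _ (fun o _ => hof o)] at hsum
  have e3 : ∀ o : Option (Fin q), ∑ᶠ v : DV k K, (v.ord (val (a' o) y) +
      (poleOrder v y : ℤ)) = deg k y := by
    intro o
    rw [finsum_add_distrib (pfm k K htr _).1 hPf, (pfm k K htr _).2, zero_add, cast_deg htr]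
  have e4 : ∑ᶠ v : DV k K, (if v ∈ S then (m : ℤ) * ρ else 0) = S.card * (m * ρ) := by
    have : ∑ᶠ v : DV k K, (if v ∈ S then (m : ℤ) * ρ else 0) = ∑ v ∈ S, (m : ℤ) * ρ := by
      rw [finsum_eq_sum_of_support_subset _ (s := S) (by
        intro v hv
        by_contra hcon
        apply hv
        exact if_neg hcon)]
      exact Finset.sum_congr rfl fun v hv => if_pos hv
    rw [this, Finset.sum_const, nsmul_eq_mul]
  simp only [e3, e4, Finset.sum_const, nsmul_eq_mul] at hsum
  -- comparison of the degrees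
  have hpo : ∀ v : DV k K, poleOrder v (Sum.elim y x) ≤ poleOrder v y := by
    intro v
    refine poleOrder_le v _ _ fun i => ?_
    rcases i with j | i
    · exact npole_le v y j
    · simp only [Sum.elim_inr]
      have h4 := hge v (some i)
      rw [hordx] at h4
      have h7 : (2 : ℤ) ≤ μ i := by exact_mod_cast hm.trans (hμ i)
      by_contra hcon
      push Not at hcon
      nlinarith
  have hdeg : (deg k (Sum.elim y x) : ℤ) ≤ deg k y := by
    rw [cast_deg htr, cast_deg htr]
    have hPf' : (Function.support fun v : DV k K =>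
        (poleOrder v (Sum.elim y x) : ℤ)).Finite := by
      refine (pfi k K htr _ (Sum.elim y x)).subset fun v hv => ?_
      simpa using hv
    have h5 : 0 ≤ ∑ᶠ v : DV k K, ((poleOrder v y : ℤ) - poleOrder v (Sum.elim y x)) := by
      refine finsum_nonneg fun v => ?_
      have := hpo v
      omega
    rw [finsum_sub_distrib hPf hPf'] at h5
    omega
  have hs'c' : (s'.card : ℤ) = T - 1 := by
    have : ((s'.card + 1 : ℕ) : ℤ) = T := by rw [hs'c]
    push_cast at this
    linarith
  have hcoef' : ((m : ℤ) + 1) * T ≤ 2 * m * E := by exact_mod_cast hcoef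
  have hdy0 : (0 : ℤ) ≤ deg k y := by positivity
  have hmain : (2 * (m : ℤ) * E - (m + 1) * T + 1) * deg k y ≤
      m * ρ * (canDeg D + S.card) := by
    rw [hs'c'] at hsum
    have hm0 : (0 : ℤ) ≤ m := by positivity
    have h6 := mul_le_mul_of_nonneg_left h1 hm0
    rw [← hρ'] at h6
    nlinarith
  rw [← hE, ← hT, ← hρ]
  refine hdeg.trans (le_trans ?_ hmain)
  nlinarith

end Pool.Agent.H27.LV
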