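import Pool.Agent.H27.LV.Gen
import Pool.Agent.H27.LV.Basic

/-!
# MP_70ba79_ag: forms of arbitrary degree `e` (second board, table `lw_modules`)

The linear form `lin x` of the first board is replaced by a form `frm c` of degree `e` with
coefficients `c : Mon (n + 1) e → K`. Source of the operator: forms of degree `d + e`; it kills the
multiples of `frm c` (forms of degree `d` times `frm c`).
`E = card (Mon (n+1) d)`, `ρ = card (Mon (n+1) (d+e)) - E`.
-/

set_option autoImplicit false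

namespace Pool.Agent.H27.LV

open MvPolynomial SC

section Defs

variable {k K : Type} [Field k] [Field K] [Algebra k K] {n e : ℕ} {ι : Type}

/-- value of the form with coefficients `c` at the constant point `a` -/
noncomputable def val (a : Fin (n + 1) → k) (c : Mon (n + 1) e → K) : K :=
  ∑ β, algebraMap k K (mv e a β) * c β

/-- the operator `u(g) = g ∂F - F ∑ g(a_i) (D F(a_i) / F(a_i)) φ_i`, `F = frm c` -/
noncomputable def vv [Fintype ι] (D : Derivation k K K) (c : Mon (n + 1) e → K)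
    (a : ι → Fin (n + 1) → k) (φ : ι → MvPolynomial (Fin (n + 1)) k)
    (g : MvPolynomial (Fin (n + 1)) K) : MvPolynomial (Fin (n + 1)) K :=
  g * frm (fun β => D (c β)) -
    frm c * ∑ i, C (eval (evk K (a i)) g * (D (val (a i) c) / val (a i) c)) *
      MvPolynomial.map (algebraMap k K) (φ i)

/-- multiplication by `frm c` from forms of degree `d` to forms of degree `d + e` (left columns)
and the unit vectors of the monomials `τ r` (right columns) -/
noncomputable def aug {F : Type} [Field F] {R : Type} (d : ℕ) (c : Mon (n + 1) e → F)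
    (τ : R → Mon (n + 1) (d + e)) : Matrix (Mon (n + 1) (d + e)) (Mon (n + 1) d ⊕ R) F :=
  Matrix.of fun p x => match x with
    | Sum.inl p' => (frm c * mono F p'.1).coeff (fs p.1)
    | Sum.inr r => if p = τ r then 1 else 0

/-- the minor of the operator with columns `τ` and rows `κ` -/
noncomputable def minr [Fintype ι] {R : Type} [Fintype R] [DecidableEq R] {d : ℕ}
    (D : Derivation k K K) (c : Mon (n + 1) e → K)
    (a : ι → Fin (n + 1) → k) (φ : ι → MvPolynomial (Fin (n + 1)) k)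
    (κ : R → Mon (n + 1) (d + e + e)) (τ : R → Mon (n + 1) (d + e)) : K :=
  (Matrix.of fun p q : R => (vv D c a φ (mono K (τ q).1)).coeff (fs (κ p).1)).det

/-- `F` and `∂F` are coprime, in the form in which it is used -/
def Good (D : Derivation k K K) (c : Mon (n + 1) e → K) : Prop :=
  frm c ≠ 0 ∧ ∀ g : MvPolynomial (Fin (n + 1)) K, frm c ∣ g * frm (fun β => D (c β)) → frm c ∣ g

end Defs

/-- VAL: `val` is the value of the form -/
def T_VAL : Prop := ∀ (k K : Type) [Field k] [Field K] [Algebra k K] (n e : ℕ)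
  (a : Fin (n + 1) → k) (c : Mon (n + 1) e → K) (D : Derivation k K K) (s : K),
  val a c = eval (evk K a) (frm c) ∧ val a (fun β => D (c β)) = D (val a c) ∧
  val a (fun β => s * c β) = s * val a c ∧ frm (fun β => s * c β) = C s * frm c

/-- UL2: the operator kills the multiples of `frm c` -/
def T_UL2 : Prop := ∀ (k K : Type) [Field k] [Field K] [Algebra k K] (n d e : ℕ) (ι : Type)
  [Fintype ι] (a : ι → Fin (n + 1) → k) (φ : ι → MvPolynomial (Fin (n + 1)) k)
  (D : Derivation k K K) (c : Mon (n + 1) e → K),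
  DualBasis (d + e) a φ → (∀ i, val (a i) c ≠ 0) →
  ∀ g : MvPolynomial (Fin (n + 1)) K, g.IsHomogeneous d → vv D c a φ (frm c * g) = 0

/-- USC2: homogeneity in `c` -/
def T_USC2 : Prop := ∀ (k K : Type) [Field k] [Field K] [Algebra k K] (n d e : ℕ) (ι : Type)
  [Fintype ι] (a : ι → Fin (n + 1) → k) (φ : ι → MvPolynomial (Fin (n + 1)) k)
  (D : Derivation k K K) (c : Mon (n + 1) e → K) (s : K),
  DualBasis (d + e) a φ → (∀ i, val (a i) c ≠ 0) → s ≠ 0 →
  ∀ g : MvPolynomial (Fin (n + 1)) K, g.IsHomogeneous (d + e) →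
  vv D (fun β => s * c β) a φ g = C s * vv D c a φ g

/-- HOM2: linearity and degree -/
def T_HOM2 : Prop := ∀ (k K : Type) [Field k] [Field K] [Algebra k K] (n d e : ℕ) (ι : Type)
  [Fintype ι] (a : ι → Fin (n + 1) → k) (φ : ι → MvPolynomial (Fin (n + 1)) k)
  (D : Derivation k K K) (c : Mon (n + 1) e → K), DualBasis (d + e) a φ →
  (∀ g h, vv D c a φ (g + h) = vv D c a φ g + vv D c a φ h) ∧
  (∀ (s : K) g, vv D c a φ (C s * g) = C s * vv D c a φ g) ∧
  (∀ g : MvPolynomial (Fin (n + 1)) K, g.IsHomogeneous (d + e) →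
    (vv D c a φ g).IsHomogeneous (d + e + e))

/-- INJ2: the kernel of the operator -/
def T_INJ2 : Prop := ∀ (k K : Type) [Field k] [Field K] [Algebra k K] (n d e : ℕ) (ι : Type)
  [Fintype ι] (a : ι → Fin (n + 1) → k) (φ : ι → MvPolynomial (Fin (n + 1)) k)
  (D : Derivation k K K) (c : Mon (n + 1) e → K), Good D c →
  ∀ g : MvPolynomial (Fin (n + 1)) K, g.IsHomogeneous (d + e) → vv D c a φ g = 0 →
  ∃ h : MvPolynomial (Fin (n + 1)) K, h.IsHomogeneous d ∧ g = frm c * h

/-- COP: a squarefree form without constant factors is coprime to its derivative -/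
def T_COP : Prop := ∀ (k K : Type) [Field k] [Field K] [Algebra k K] (n e : ℕ)
  (D : Derivation k K K) (c : Mon (n + 1) e → K),
  (∀ z : K, D z = 0 → z ∈ Set.range (algebraMap k K)) → Squarefree (frm c) →
  (∀ P : MvPolynomial (Fin (n + 1)) k, MvPolynomial.map (algebraMap k K) P ∣ frm c →
    ∃ s : k, P = C s) → Good D c

/-- IRR: irreducible forms and linear forms which are not constant satisfy the hypotheses of COP -/
def T_IRR : Prop := ∀ (k K : Type) [Field k] [Field K] [Algebra k K] (n e : ℕ)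
  (c : Mon (n + 1) e → K), (e = 1 ∨ Irreducible (frm c)) →
  (∃ β γ, c β ≠ 0 ∧ c γ / c β ∉ Set.range (algebraMap k K)) → Squarefree (frm c) ∧
  ∀ P : MvPolynomial (Fin (n + 1)) k, MvPolynomial.map (algebraMap k K) P ∣ frm c →
    ∃ s : k, P = C s

/-- CPL: independent columns are completed by unit vectors -/
def T_CPL : Prop := ∀ (F : Type) [Field F] (P A R : Type) [Fintype P] [Fintype A] [Fintype R]
  [DecidableEq P] [DecidableEq A] [DecidableEq R] (α : Matrix P A F) (e : A ⊕ R ≃ P),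
  (∀ v : A → F, α.mulVec v = 0 → v = 0) →
  ∃ τ : R → P, ((Matrix.fromCols α (Matrix.of fun (p : P) (r : R) =>
    if p = τ r then (1 : F) else 0)).submatrix e id).det ≠ 0

/-- CPF: the same for the multiplication by a nonzero form -/
def T_CPF : Prop := ∀ (F : Type) [Field F] (n d e : ℕ) (R : Type) [Fintype R] [DecidableEq R]
  (c : Mon (n + 1) e → F) (e0 : Mon (n + 1) d ⊕ R ≃ Mon (n + 1) (d + e)), frm c ≠ 0 →
  ∃ τ : R → Mon (n + 1) (d + e), ((aug d c τ).submatrix e0 id).det ≠ 0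

/-- CHB2: the minors for different complements -/
def T_CHB2 : Prop := ∀ (k K : Type) [Field k] [Field K] [Algebra k K] (n d e : ℕ) (ι R : Type)
  [Fintype ι] [Fintype R] [DecidableEq R] (a : ι → Fin (n + 1) → k)
  (φ : ι → MvPolynomial (Fin (n + 1)) k) (D : Derivation k K K) (c : Mon (n + 1) e → K)
  (e0 : Mon (n + 1) d ⊕ R ≃ Mon (n + 1) (d + e)) (κ : R → Mon (n + 1) (d + e + e))
  (τ τ' : R → Mon (n + 1) (d + e)), DualBasis (d + e) a φ → (∀ i, val (a i) c ≠ 0) →
  ((aug d c τ).submatrix e0 id).det ≠ 0 →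
  minr D c a φ κ τ * ((aug d c τ').submatrix e0 id).det =
    minr D c a φ κ τ' * ((aug d c τ).submatrix e0 id).det

/-- MIN2: a nonzero minor -/
def T_MIN2 : Prop := ∀ (k K : Type) [Field k] [Field K] [Algebra k K] (n d e : ℕ) (ι R : Type)
  [Fintype ι] [Fintype R] [DecidableEq R] (a : ι → Fin (n + 1) → k)
  (φ : ι → MvPolynomial (Fin (n + 1)) k) (D : Derivation k K K) (c : Mon (n + 1) e → K)
  (e0 : Mon (n + 1) d ⊕ R ≃ Mon (n + 1) (d + e)), DualBasis (d + e) a φ → Good D c →
  ∃ (κ : R → Mon (n + 1) (d + e + e)) (τ : R → Mon (n + 1) (d + e)),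
    minr D c a φ κ τ ≠ 0 ∧ ((aug d c τ).submatrix e0 id).det ≠ 0

/-- UNI: at a place where `c` is integral and not zero in the residue field there is a complement
with a unit determinant -/
def T_UNI : Prop := ∀ (k K : Type) [Field k] [Field K] [Algebra k K] (n d e : ℕ) (R : Type)
  [Fintype R] [DecidableEq R] (v : DV k K) (c : Mon (n + 1) e → K)
  (e0 : Mon (n + 1) d ⊕ R ≃ Mon (n + 1) (d + e)),
  (∀ z : K, 0 ≤ v.ord z → ∃ s : k, ge v 1 (z - algebraMap k K s)) →
  (∀ β, 0 ≤ v.ord (c β)) → (∃ β, c β ≠ 0 ∧ v.ord (c β) = 0) →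
  ∃ τ : R → Mon (n + 1) (d + e), ((aug d c τ).submatrix e0 id).det ≠ 0 ∧
    v.ord ((aug d c τ).submatrix e0 id).det = 0

/-- LB2: the local estimate for normalised coefficients -/
def T_LB2 : Prop := ∀ (k K : Type) [Field k] [Field K] [Algebra k K] (n d e : ℕ) (ι R : Type)
  [Fintype ι] [DecidableEq ι] [Fintype R] [DecidableEq R] (a : ι → Fin (n + 1) → k)
  (φ : ι → MvPolynomial (Fin (n + 1)) k) (D : Derivation k K K) (v : DV k K) (δ : ℤ)
  (c : Mon (n + 1) e → K) (κ : R → Mon (n + 1) (d + e + e)) (τ : R → Mon (n + 1) (d + e))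
  (I : Finset ι), DOrd v D δ → (∀ i, val (a i) c ≠ 0) → (∀ β, 0 ≤ v.ord (c β)) →
  (∀ i, i ∈ I ↔ 0 < v.ord (val (a i) c)) →
  ge v (Fintype.card R * δ - I.card) (minr D c a φ κ τ)

/-- LOC2: the local estimate -/
def T_LOC2 : Prop := ∀ (k K : Type) [Field k] [Field K] [Algebra k K] (n d e : ℕ) (ι R : Type)
  [Fintype ι] [DecidableEq ι] [Fintype R] [DecidableEq R] (a : ι → Fin (n + 1) → k)
  (φ : ι → MvPolynomial (Fin (n + 1)) k) (D : Derivation k K K) (v : DV k K) (δ : ℤ)
  (c : Mon (n + 1) e → K) (e0 : Mon (n + 1) d ⊕ R ≃ Mon (n + 1) (d + e))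
  (κ : R → Mon (n + 1) (d + e + e)) (τ : R → Mon (n + 1) (d + e)) (I : Finset ι),
  DualBasis (d + e) a φ → DOrd v D δ →
  (∀ z : K, 0 ≤ v.ord z → ∃ s : k, ge v 1 (z - algebraMap k K s)) →
  (∀ i, val (a i) c ≠ 0) → (∃ l : Mon (n + 1) e → k, ∑ β, algebraMap k K (l β) * c β = 1) →
  (∀ i, i ∈ I ↔ 0 < v.ord (val (a i) c) + poleOrder v c) →
  ((aug d c τ).submatrix e0 id).det ≠ 0 →
  ge v (((Fintype.card (Mon (n + 1) d) : ℤ) - Fintype.card R) * poleOrder v c +
      Fintype.card R * δ - I.card) (minr D c a φ κ τ / ((aug d c τ).submatrix e0 id).det)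

/-- HYC2: number of the points on a hypersurface of degree `e` -/
def T_HYC2 : Prop := ∀ (k : Type) [Field k] (n d e : ℕ) (ι : Type) [Fintype ι]
  (a : ι → Fin (n + 1) → k) (φ : ι → MvPolynomial (Fin (n + 1)) k) (c : Mon (n + 1) e → k)
  (I : Finset ι), DualBasis (d + e) a φ → c ≠ 0 → (∀ i ∈ I, val (a i) c = 0) →
  I.card + Fintype.card (Mon (n + 1) d) ≤ Fintype.card (Mon (n + 1) (d + e))

/-- HYV2: number of the points on the hypersurface given by a place -/
def T_HYV2 : Prop := ∀ (k K : Type) [Field k] [Field K] [Algebra k K] (n d e : ℕ) (ι : Type)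
  [Fintype ι] (a : ι → Fin (n + 1) → k) (φ : ι → MvPolynomial (Fin (n + 1)) k) (v : DV k K)
  (c : Mon (n + 1) e → K) (I : Finset ι), DualBasis (d + e) a φ →
  (∀ z : K, 0 ≤ v.ord z → ∃ s : k, ge v 1 (z - algebraMap k K s)) →
  (∃ l : Mon (n + 1) e → k, ∑ β, algebraMap k K (l β) * c β = 1) →
  (∀ i ∈ I, val (a i) c = 0 ∨ 0 < v.ord (val (a i) c) + poleOrder v c) →
  I.card + Fintype.card (Mon (n + 1) d) ≤ Fintype.card (Mon (n + 1) (d + e))

/-- SMT2: the level one inequality for forms of degree `e` -/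
def T_SMT2 : Prop := ∀ (k K : Type) [Field k] [IsAlgClosed k] [CharZero k] [Field K] [Algebra k K]
  [Algebra.EssFiniteType k K], Algebra.trdeg k K = 1 → ∀ (n d e : ℕ) (ι : Type) [Fintype ι]
  [DecidableEq ι] (a : ι → Fin (n + 1) → k) (φ : ι → MvPolynomial (Fin (n + 1)) k)
  (D : Derivation k K K) (c : Mon (n + 1) e → K),
  DualBasis (d + e) a φ → D ≠ 0 → (∀ i, val (a i) c ≠ 0) →
  (∃ l : Mon (n + 1) e → k, ∑ β, algebraMap k K (l β) * c β = 1) → Good D c →
  ((2 * (Fintype.card (Mon (n + 1) d) : ℤ) - Fintype.card (Mon (n + 1) (d + e))) * deg k c ≤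
    ∑ᶠ v : DV k K, ((Finset.univ.filter fun i => 0 < v.ord (val (a i) c) + poleOrder v c).card
      : ℤ) + ((Fintype.card (Mon (n + 1) (d + e)) : ℤ) - Fintype.card (Mon (n + 1) d)) *
        canDeg D) ∧
  ∀ v : DV k K, (Finset.univ.filter fun i =>
    0 < v.ord (val (a i) c) + poleOrder v c).card + Fintype.card (Mon (n + 1) d) ≤
      Fintype.card (Mon (n + 1) (d + e))

end Pool.Agent.H27.LV
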