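import Pool.Agent.H27.LV.SMT
import Pool.Agent.H27.LV.LVX
import Pool.Agent.H27.LV.Targets3

/-!
# MP_70ba79_ag: the level one inequality for forms of degree `e` (target SMT2)
-/

set_option autoImplicit false

namespace Pool.Agent.H27.LV

open SC

/-- finiteness of the set of places where a function vanishes relative to the poles -/
lemma finite_card_ne' {k K : Type} [Field k] [IsAlgClosed k] [CharZero k] [Field K] [Algebra k K]
    [Algebra.EssFiniteType k K] (htr : Algebra.trdeg k K = 1) {J : Type} [Fintype J] {ι : Type}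
    [Fintype ι] [DecidableEq ι] (f : ι → K) (y : J → K) :
    {v : DV k K | ((Finset.univ.filter fun i => 0 < v.ord (f i) + poleOrder v y).card : ℤ) ≠
      0}.Finite := by
  refine ((Set.finite_iUnion fun i => (pfm k K htr (f i)).1).union
    (pfi k K htr J y)).subset fun v hv => ?_
  simp only [Set.mem_union, Set.mem_iUnion, Set.mem_ofPred_eq] at hv ⊢
  by_contra hcon
  push Not at hcon
  apply hv
  rw [Finset.filter_false_of_mem]
  · simp
  · intro i _
    rw [hcon.1 i, hcon.2]
    simp

theorem smt2 (hMIN : T_MIN2) (hLOC : T_LOC2) (hHYV : T_HYV2) (hDFI : T_DFI) : T_SMT2 := by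
  intro k K _ _ _ _ _ _ htr n d e ι _ _ a φ D c hφ hD hl hnorm hgood
  have hrat := fun v : DV k K => (rat k K htr v).2
  have hI2 : ∀ v : DV k K, (Finset.univ.filter fun i =>
      0 < v.ord (val (a i) c) + poleOrder v c).card + Fintype.card (Mon (n + 1) d) ≤
      Fintype.card (Mon (n + 1) (d + e)) := by
    intro v
    refine hHYV k K n d e ι a φ v c _ hφ (hrat v) hnorm fun i hi => ?_
    right
    simpa using hi
  refine ⟨?_, hI2⟩
  -- the index type of the complement
  obtain ⟨E, hE⟩ : ∃ E, E = Fintype.card (Mon (n + 1) d) := ⟨_, rfl⟩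
  obtain ⟨T, hT⟩ : ∃ T, T = Fintype.card (Mon (n + 1) (d + e)) := ⟨_, rfl⟩
  by_cases hne : Nonempty (DV k K)
  swap
  · have h0 : ∀ f : DV k K → ℤ, ∑ᶠ v, f v = 0 := by
      intro f
      have : IsEmpty (DV k K) := not_nonempty_iff.1 hne
      exact finsum_of_isEmpty f
    have h1 : (deg k c : ℤ) = 0 := by rw [cast_deg htr]; exact h0 _
    have h2 : canDeg D = 0 := by unfold canDeg; rw [h0]; simp
    rw [h1, h2, h0]
    simp
  obtain ⟨v0⟩ := hne
  have hET : E ≤ T := by
    have := hI2 v0
    rw [← hE, ← hT] at this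
    omega
  have hcardR : Fintype.card (Mon (n + 1) d ⊕ Fin (T - E)) = Fintype.card (Mon (n + 1) (d + e)) := by
    rw [Fintype.card_sum, Fintype.card_fin, ← hE, ← hT]
    omega
  let e0 : Mon (n + 1) d ⊕ Fin (T - E) ≃ Mon (n + 1) (d + e) := Fintype.equivOfCardEq hcardR
  obtain ⟨κ, τ, hκ, hA⟩ := hMIN k K n d e ι (Fin (T - E)) a φ D c e0 hφ hgood
  obtain ⟨R, hR⟩ : ∃ R, R = minr D c a φ κ τ / ((aug d c τ).submatrix e0 id).det := ⟨_, rfl⟩
  have hRne : R ≠ 0 := by rw [hR]; exact div_ne_zero hκ hA
  obtain ⟨hRf, hR0⟩ := pfm k K htr R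
  obtain ⟨ρ, hρ⟩ : ∃ ρ : ℤ, ρ = (T : ℤ) - E := ⟨_, rfl⟩
  obtain ⟨N, hN⟩ : ∃ N : DV k K → ℤ, N = fun v => ((Finset.univ.filter fun i =>
    0 < v.ord (val (a i) c) + poleOrder v c).card : ℤ) := ⟨_, rfl⟩
  have hNf : (Function.support N).Finite := by
    rw [hN]
    exact finite_card_ne' htr (fun i => val (a i) c) c
  have hPf : (Function.support fun v : DV k K => (poleOrder v c : ℤ)).Finite := by
    refine (pfi k K htr _ c).subset fun v hv => ?_
    simpa using hv
  have hδf : (Function.support fun v : DV k K => ordD v D).Finite := hDFI k K htr D hD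
  have hloc : ∀ v : DV k K, 0 ≤ v.ord R - ((E - ρ) * poleOrder v c + ρ * ordD v D - N v) := by
    intro v
    have h := hLOC k K n d e ι (Fin (T - E)) a φ D v (ordD v D) c e0 κ τ
      (Finset.univ.filter fun i => 0 < v.ord (val (a i) c) + poleOrder v c) hφ
      (dor k K htr D hD v).2.1 (hrat v) hl hnorm (fun i => by simp) hA
    rw [← hR, ← hE, Fintype.card_fin, Nat.cast_sub hET, ← hρ] at h
    rcases h with h | h
    · exact absurd h hRne
    · rw [hN]
      simp only
      omega
  have hsum := finsum_nonneg hloc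
  have e1 : ∑ᶠ v : DV k K, (v.ord R - ((E - ρ) * poleOrder v c + ρ * ordD v D - N v)) =
      0 - ((E - ρ) * deg k c + ρ * (- canDeg D) - ∑ᶠ v, N v) := by
    have f1 : (Function.support fun v : DV k K => ((E : ℤ) - ρ) * (poleOrder v c : ℤ)).Finite :=
      hPf.subset fun v hv => by
        simp only [Function.mem_support] at hv ⊢
        exact right_ne_zero_of_mul hv
    have f2 : (Function.support fun v : DV k K => ρ * ordD v D).Finite :=
      hδf.subset fun v hv => by
        simp only [Function.mem_support] at hv ⊢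
        exact right_ne_zero_of_mul hv
    have f3 : (Function.support fun v : DV k K =>
        ((E : ℤ) - ρ) * (poleOrder v c : ℤ) + ρ * ordD v D).Finite :=
      (f1.union f2).subset (Function.support_add _ _)
    have f4 : (Function.support fun v : DV k K =>
        ((E : ℤ) - ρ) * (poleOrder v c : ℤ) + ρ * ordD v D - N v).Finite :=
      (f3.union hNf).subset (Function.support_sub _ _)
    rw [finsum_sub_distrib hRf f4, hR0, finsum_sub_distrib f3 hNf, finsum_add_distrib f1 f2,
      ← mul_finsum, ← mul_finsum, cast_deg htr]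
    unfold canDeg
    ring
  rw [e1] at hsum
  rw [← hE, ← hT]
  have e2 : ∑ᶠ v : DV k K, ((Finset.univ.filter fun i => 0 < v.ord (val (a i) c) +
      poleOrder v c).card : ℤ) = ∑ᶠ v, N v := by rw [hN]
  rw [e2]
  rw [hρ] at hsum
  nlinarith [hsum]

end Pool.Agent.H27.LV
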