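import Pool.Agent.H27.LV.Defs

/-!
# MP_70ba79_ag: targets of the board `lv_modules`

Notation in the comments: `N = Mon (n+1) (d+1)`, `E = Mon (n+1) d`, `ρ = Mon n (d+1)`,
`L = lin x`, `Ξ = lin (D x)`, `u = uu D x a φ`.
-/

set_option autoImplicit false

namespace Pool.Agent.H27.LV

open MvPolynomial SC

/-! ### Algebra of the operator `u` -/

/-- DK: the dual basis represents forms over `K` -/
def T_DK : Prop := ∀ (k K : Type) [Field k] [Field K] [Algebra k K] (n d : ℕ) (ι : Type)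
  [Fintype ι] (a : ι → Fin (n + 1) → k) (φ : ι → MvPolynomial (Fin (n + 1)) k),
  DualBasis d a φ → ∀ g : MvPolynomial (Fin (n + 1)) K, g.IsHomogeneous d →
  g = ∑ i, C (eval (evk K (a i)) g) * MvPolynomial.map (algebraMap k K) (φ i)

/-- UL: `u` kills the multiples of `L` -/
def T_UL : Prop := ∀ (k K : Type) [Field k] [Field K] [Algebra k K] (n d : ℕ) (ι : Type)
  [Fintype ι] (a : ι → Fin (n + 1) → k) (φ : ι → MvPolynomial (Fin (n + 1)) k)
  (D : Derivation k K K) (x : Fin (n + 1) → K),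
  DualBasis (d + 1) a φ → (∀ i, ell (a i) x ≠ 0) →
  ∀ g : MvPolynomial (Fin (n + 1)) K, g.IsHomogeneous d → uu D x a φ (lin x * g) = 0

/-- USC: homogeneity of `u` in `x` -/
def T_USC : Prop := ∀ (k K : Type) [Field k] [Field K] [Algebra k K] (n d : ℕ) (ι : Type)
  [Fintype ι] (a : ι → Fin (n + 1) → k) (φ : ι → MvPolynomial (Fin (n + 1)) k)
  (D : Derivation k K K) (x : Fin (n + 1) → K) (c : K),
  DualBasis (d + 1) a φ → (∀ i, ell (a i) x ≠ 0) → c ≠ 0 →
  ∀ g : MvPolynomial (Fin (n + 1)) K, g.IsHomogeneous (d + 1) →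
  uu D (fun j => c * x j) a φ g = C c * uu D x a φ g

/-- INJ: `u` is injective on the forms without the variable `0`, if `x = (1, y)`. The form is given
by its coefficients. -/
def T_INJ : Prop := ∀ (k K : Type) [Field k] [Field K] [Algebra k K] (n d : ℕ) (ι : Type)
  [Fintype ι] (a : ι → Fin (n + 1) → k) (φ : ι → MvPolynomial (Fin (n + 1)) k)
  (D : Derivation k K K) (y : Fin n → K), (∃ j, D (y j) ≠ 0) →
  ∀ c : Mon n (d + 1) → K, uu D (xx y) a φ (∑ q, C (c q) * mono K (insm 0 q)) = 0 → c = 0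

/-- HOM: `u` is linear and homogeneous of degree one -/
def T_HOM : Prop := ∀ (k K : Type) [Field k] [Field K] [Algebra k K] (n d : ℕ) (ι : Type)
  [Fintype ι] (a : ι → Fin (n + 1) → k) (φ : ι → MvPolynomial (Fin (n + 1)) k)
  (D : Derivation k K K) (x : Fin (n + 1) → K), DualBasis (d + 1) a φ →
  (∀ g h, uu D x a φ (g + h) = uu D x a φ g + uu D x a φ h) ∧
  (∀ (c : K) g, uu D x a φ (C c * g) = C c * uu D x a φ g) ∧
  (∀ g : MvPolynomial (Fin (n + 1)) K, g.IsHomogeneous (d + 1) →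
    (uu D x a φ g).IsHomogeneous (d + 2))

/-- MRK: an injective matrix has a nonzero maximal minor -/
def T_MRK : Prop := ∀ (F : Type) [Field F] (P Q : Type) [Finite P] [Fintype Q] [DecidableEq Q]
  (M : Matrix P Q F), (∀ c : Q → F, M.mulVec c = 0 → c = 0) →
  ∃ κ : Q → P, (M.submatrix κ id).det ≠ 0

/-- MIN: a nonzero minor of `u` -/
def T_MIN : Prop := ∀ (k K : Type) [Field k] [Field K] [Algebra k K] (n d : ℕ) (ι : Type)
  [Fintype ι] (a : ι → Fin (n + 1) → k) (φ : ι → MvPolynomial (Fin (n + 1)) k)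
  (D : Derivation k K K) (y : Fin n → K), DualBasis (d + 1) a φ → (∃ j, D (y j) ≠ 0) →
  ∃ κ : Mon n (d + 1) → Mon (n + 1) (d + 2),
    (Matrix.of fun p q : Mon n (d + 1) =>
      (uu D (xx y) a φ (mono K (insm 0 q))).coeff (fs (κ p).1)).det ≠ 0

/-! ### Determinants -/

/-- the matrix of the multiplication by `L` from forms of degree `d` to forms of degree `d + 1`
(left columns), and the unit vectors of the monomials without the variable `b` (right columns) -/
noncomputable def alB {K : Type} [Field K] {n : ℕ} (d : ℕ) (x : Fin (n + 1) → K) (b : Fin (n + 1)) :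
    Matrix (Mon (n + 1) (d + 1)) (Mon (n + 1) d ⊕ Mon n (d + 1)) K :=
  Matrix.of fun p c => match c with
    | Sum.inl e => (lin x * mono K e.1).coeff (fs p.1)
    | Sum.inr q => (mono K (insm b q)).coeff (fs p.1)

/-- SPL: the monomials are the multiples of the variable `b` and the monomials without it -/
def T_SPL : Prop := ∀ (n d : ℕ) (b : Fin (n + 1)),
  ∃ e : Mon n (d + 1) ⊕ Mon (n + 1) d ≃ Mon (n + 1) (d + 1),
    (∀ q, (e (Sum.inl q)).1 = insm b q) ∧ (∀ p, (e (Sum.inr p)).1 = fun j => p.1 j + if j = b then 1 else 0)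

/-- ALP: the determinant of `alB` -/
def T_ALP : Prop := ∀ (K : Type) [Field K] (n d : ℕ) (x : Fin (n + 1) → K) (b : Fin (n + 1))
  (e : Mon (n + 1) d ⊕ Mon n (d + 1) ≃ Mon (n + 1) (d + 1)),
  ((alB d x b).submatrix e id).det = x b ^ Fintype.card (Mon (n + 1) d) ∨
  ((alB d x b).submatrix e id).det = - x b ^ Fintype.card (Mon (n + 1) d)

/-- LAL: if `U α = 0` then `det (U B) det [α | B'] = det (U B') det [α | B]` -/
def T_LAL : Prop := ∀ (F : Type) [Field F] (A R : Type) [Fintype A] [Fintype R] [DecidableEq A]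
  [DecidableEq R] (U : Matrix R (A ⊕ R) F) (α : Matrix (A ⊕ R) A F) (B B' : Matrix (A ⊕ R) R F),
  U * α = 0 → (Matrix.fromCols α B).det ≠ 0 →
  (U * B).det * (Matrix.fromCols α B').det = (U * B').det * (Matrix.fromCols α B).det

/-- CHB: the minors of `u` in the different bases of forms modulo `L` -/
def T_CHB : Prop := ∀ (k K : Type) [Field k] [Field K] [Algebra k K] (n d : ℕ) (ι : Type)
  [Fintype ι] (a : ι → Fin (n + 1) → k) (φ : ι → MvPolynomial (Fin (n + 1)) k)
  (D : Derivation k K K) (x : Fin (n + 1) → K) (b : Fin (n + 1))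
  (κ : Mon n (d + 1) → Mon (n + 1) (d + 2)),
  DualBasis (d + 1) a φ → (∀ i, ell (a i) x ≠ 0) → x 0 ≠ 0 →
  ∃ ε : K, (ε = 1 ∨ ε = -1) ∧
    (Matrix.of fun p q : Mon n (d + 1) =>
      (uu D x a φ (mono K (insm 0 q))).coeff (fs (κ p).1)).det *
      x b ^ Fintype.card (Mon (n + 1) d) =
    ε * ((Matrix.of fun p q : Mon n (d + 1) =>
      (uu D x a φ (mono K (insm b q))).coeff (fs (κ p).1)).det *
      x 0 ^ Fintype.card (Mon (n + 1) d))

/-! ### Local estimates -/

/-- WDT: weighted estimate of a determinant -/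
def T_WDT : Prop := ∀ (k K : Type) [Field k] [Field K] [Algebra k K] (v : DV k K) (R : Type)
  [Fintype R] [DecidableEq R] (M : Matrix R R K) (w z : R → ℤ),
  (∀ i j, ge v (w i + z j) (M i j)) → ge v (∑ i, w i + ∑ j, z j) M.det

/-- LDT: each of the functions `b i` with a pole contributes only once -/
def T_LDT : Prop := ∀ (k K : Type) [Field k] [Field K] [Algebra k K] (v : DV k K) (R ι : Type)
  [Fintype R] [DecidableEq R] [Fintype ι] [DecidableEq ι] (A : Matrix R R K) (B : Matrix R ι K)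
  (C : Matrix ι R K) (δ : ℤ) (I : Finset ι), (∀ p q, ge v δ (A p q)) →
  (∀ p i, ge v (if i ∈ I then δ - 1 else δ) (B p i)) → (∀ i q, ge v 0 (C i q)) →
  ge v (Fintype.card R * δ - I.card) (A + B * C).det

/-- the order of vanishing of derivatives at `v`: hypothesis of the local modules, it is proved in
`Curve.lean` -/
def DOrd {k K : Type} [Field k] [Field K] [Algebra k K] (v : DV k K) (D : Derivation k K K)
    (δ : ℤ) : Prop :=
  (∀ z : K, 0 ≤ v.ord z → ge v δ (D z)) ∧ ∀ z : K, z ≠ 0 → ge v (v.ord z - 1 + δ) (D z)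

/-- LB: the local estimate for normalised coordinates -/
def T_LB : Prop := ∀ (k K : Type) [Field k] [Field K] [Algebra k K] (n d : ℕ) (ι : Type)
  [Fintype ι] [DecidableEq ι] (a : ι → Fin (n + 1) → k) (φ : ι → MvPolynomial (Fin (n + 1)) k)
  (D : Derivation k K K) (v : DV k K) (δ : ℤ) (x : Fin (n + 1) → K) (b : Fin (n + 1))
  (κ : Mon n (d + 1) → Mon (n + 1) (d + 2)) (I : Finset ι),
  DOrd v D δ → (∀ i, ell (a i) x ≠ 0) → (∀ j, 0 ≤ v.ord (x j)) →
  (∀ i, i ∈ I ↔ 0 < v.ord (ell (a i) x)) →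
  ge v (Fintype.card (Mon n (d + 1)) * δ - I.card)
    (Matrix.of fun p q : Mon n (d + 1) =>
      (uu D x a φ (mono K (insm b q))).coeff (fs (κ p).1)).det

/-- LOC: the local estimate -/
def T_LOC : Prop := ∀ (k K : Type) [Field k] [Field K] [Algebra k K] (n d : ℕ) (ι : Type)
  [Fintype ι] [DecidableEq ι] (a : ι → Fin (n + 1) → k) (φ : ι → MvPolynomial (Fin (n + 1)) k)
  (D : Derivation k K K) (v : DV k K) (δ : ℤ) (y : Fin n → K)
  (κ : Mon n (d + 1) → Mon (n + 1) (d + 2)) (I : Finset ι),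
  DualBasis (d + 1) a φ → DOrd v D δ → (∀ i, ell (a i) (xx y) ≠ 0) →
  (∀ i, i ∈ I ↔ 0 < v.ord (ell (a i) (xx y)) + poleOrder v y) →
  ge v (((Fintype.card (Mon (n + 1) d) : ℤ) - Fintype.card (Mon n (d + 1))) * poleOrder v y +
      Fintype.card (Mon n (d + 1)) * δ - I.card)
    (Matrix.of fun p q : Mon n (d + 1) =>
      (uu D (xx y) a φ (mono K (insm 0 q))).coeff (fs (κ p).1)).det

/-! ### Counting -/

/-- HYC: at most `ρ` of the points lie on a hyperplane -/
def T_HYC : Prop := ∀ (k : Type) [Field k] (n d : ℕ) (ι : Type) [Fintype ι]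
  (a : ι → Fin (n + 1) → k) (φ : ι → MvPolynomial (Fin (n + 1)) k) (c : Fin (n + 1) → k)
  (I : Finset ι), DualBasis (d + 1) a φ → c ≠ 0 → (∀ i ∈ I, ∑ j, c j * a i j = 0) →
  I.card ≤ Fintype.card (Mon n (d + 1))

/-- HYV: at most `ρ` of the linear forms vanish at the image of a place -/
def T_HYV : Prop := ∀ (k K : Type) [Field k] [Field K] [Algebra k K] (n d : ℕ) (ι : Type)
  [Fintype ι] (a : ι → Fin (n + 1) → k) (φ : ι → MvPolynomial (Fin (n + 1)) k) (v : DV k K)
  (y : Fin n → K) (I : Finset ι), DualBasis (d + 1) a φ →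
  (∀ z : K, 0 ≤ v.ord z → ∃ c : k, ge v 1 (z - algebraMap k K c)) →
  (∀ i ∈ I, ell (a i) (xx y) = 0 ∨ 0 < v.ord (ell (a i) (xx y)) + poleOrder v y) →
  I.card ≤ Fintype.card (Mon n (d + 1))

/-- SEL: choice of the points: if no nonzero form of degree `d` vanishes at all the points `a i`
(`i : Option J`, the point `none` is not zero) then a subset which contains `none` has a dual
basis -/
def T_SEL : Prop := ∀ (k : Type) [Field k] (n d : ℕ) (J : Type) [Fintype J]
  (a : Option J → Fin (n + 1) → k), a none ≠ 0 →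
  (∀ g : MvPolynomial (Fin (n + 1)) k, g.IsHomogeneous d → (∀ i, eval (a i) g = 0) → g = 0) →
  ∃ (s : Finset (Option J)) (φ : s → MvPolynomial (Fin (n + 1)) k), none ∈ s ∧
    s.card = Fintype.card (Mon (n + 1) d) ∧ DualBasis d (fun i : s => a i.1) φ

/-- CRD: numbers of monomials -/
def T_CRD : Prop := ∀ n d : ℕ, Fintype.card (Mon (n + 1) d) = (n + d).choose n

/-- CRR: the ratio `E / ρ = (d + 1) / n` -/
def T_CRR : Prop := ∀ n d : ℕ,
  n * Fintype.card (Mon (n + 1) d) = (d + 1) * Fintype.card (Mon n (d + 1)) ∧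
  Fintype.card (Mon (n + 1) (d + 1)) =
    Fintype.card (Mon (n + 1) d) + Fintype.card (Mon n (d + 1))

/-! ### The level one inequality and its consequence -/

/-- places of `K`: `K` is a function field of one variable over the algebraically closed field `k`
of characteristic `0` -/
def T_SMT : Prop := ∀ (k K : Type) [Field k] [IsAlgClosed k] [CharZero k] [Field K] [Algebra k K]
  [Algebra.EssFiniteType k K], Algebra.trdeg k K = 1 → ∀ (n d : ℕ) (ι : Type) [Fintype ι]
  [DecidableEq ι] (a : ι → Fin (n + 1) → k) (φ : ι → MvPolynomial (Fin (n + 1)) k)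
  (D : Derivation k K K) (y : Fin n → K),
  DualBasis (d + 1) a φ → D ≠ 0 → (∀ i, ell (a i) (xx y) ≠ 0) →
  (∃ j, y j ∉ Set.range (algebraMap k K)) →
  (((Fintype.card (Mon (n + 1) d) : ℤ) - Fintype.card (Mon n (d + 1))) * deg k y ≤
    ∑ᶠ v : DV k K, ((Finset.univ.filter fun i => 0 < v.ord (ell (a i) (xx y)) + poleOrder v y).card
      : ℤ) + Fintype.card (Mon n (d + 1)) * canDeg D) ∧
  ∀ v : DV k K, (Finset.univ.filter fun i =>
    0 < v.ord (ell (a i) (xx y)) + poleOrder v y).card ≤ Fintype.card (Mon n (d + 1))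

end Pool.Agent.H27.LV
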